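import Pool.Agent.H2.L.R_seed8.H7R2.LG.Defs

set_option autoImplicit false

/-! Task A1 (helper477): the block determinant trick. -/

namespace Pool.Agent.H7R2.LG

open Matrix Polynomial

theorem A1_step {F : Type} [Field F] {n : ℕ} {κ : Type} [Fintype κ] [DecidableEq κ]
    (C : Matrix κ κ F) (E : Matrix κ (Fin n) F) (G : Matrix (Fin n) κ F)
    (P Q W : Matrix (Fin n) (Fin n) F) (hQ : Q.det ≠ 0) :
    Q.det * (C + E * (P * Q⁻¹ * W) * G).det =
      (fromBlocks Q 0 (E * P) C +
        (fromRows (-1) 0 : Matrix (Fin n ⊕ κ) (Fin n) F) * W * fromCols 0 G).det := by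
  have : Invertible Q := Matrix.invertibleOfIsUnitDet Q (Ne.isUnit hQ)
  have h1 : fromBlocks Q 0 (E * P) C +
        (fromRows (-1) 0 : Matrix (Fin n ⊕ κ) (Fin n) F) * W * fromCols 0 G =
      fromBlocks Q (-(W * G)) (E * P) C := by
    rw [fromRows_mul, fromRows_mul_fromCols, fromBlocks_add]
    simp
  rw [h1, det_fromBlocks₁₁, Matrix.invOf_eq_nonsing_inv]
  congr 2
  rw [Matrix.mul_neg, sub_neg_eq_add]
  simp only [Matrix.mul_assoc]

theorem block {R : Type} [CommRing R] {F : Type} [Field F] [Algebra R F] {n : ℕ}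
    (L : List (Matrix (Fin n) (Fin n) R × Matrix (Fin n) (Fin n) R))
    (hL : ∀ p ∈ L, algebraMap R F p.2.det ≠ 0) (κ : Type) [Fintype κ] [DecidableEq κ]
    (C : Matrix κ κ R) (E : Matrix κ (Fin n) R) (G : Matrix (Fin n) κ R) :
    ∃ p : R, algebraMap R F p =
      algebraMap R F (L.map fun p => p.2.det).prod *
        (C.map (algebraMap R F) + E.map (algebraMap R F) *
          (L.map fun p => p.1.map (algebraMap R F) * (p.2.map (algebraMap R F))⁻¹).prod *
            G.map (algebraMap R F)).det := by
  induction L generalizing κ with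
  | nil =>
    refine ⟨(C + E * G).det, ?_⟩
    rw [List.map_nil, List.map_nil, List.prod_nil, List.prod_nil, map_one, one_mul, Matrix.mul_one,
      RingHom.map_det]
    congr 1
    rw [RingHom.mapMatrix_apply, Matrix.map_add _ (map_add _), Matrix.map_mul]
  | cons pq L ih =>
    obtain ⟨P, Q⟩ := pq
    obtain ⟨p, hp⟩ := ih (fun q hq => hL q (List.mem_cons_of_mem _ hq)) (Fin n ⊕ κ)
      (fromBlocks Q 0 (E * P) C) (fromRows (-1) 0) (fromCols 0 G)
    refine ⟨p, ?_⟩
    have hQ : (Q.map (algebraMap R F)).det ≠ 0 := by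
      have h := hL (P, Q) List.mem_cons_self
      rw [RingHom.map_det] at h
      exact h
    have hQ' : algebraMap R F Q.det = (Q.map (algebraMap R F)).det := by
      rw [RingHom.map_det]
      rfl
    rw [hp, List.map_cons, List.map_cons, List.prod_cons, List.prod_cons, map_mul]
    show _ = algebraMap R F Q.det * _ * _
    rw [hQ', mul_comm (Q.map (algebraMap R F)).det, mul_assoc]
    congr 1
    rw [A1_step _ _ _ _ _ _ hQ]
    congr 2
    · rw [fromBlocks_map, Matrix.map_mul]
      simp
    · congr 1
      · congr 1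
        ext i j
        rcases i with i | i
        · rw [Matrix.map_apply, fromRows_apply_inl, fromRows_apply_inl, Matrix.neg_apply,
            Matrix.neg_apply, map_neg, Matrix.one_apply, Matrix.one_apply]
          split_ifs <;> simp
        · simp
      · ext i j
        rcases j with j | j <;> simp

end Pool.Agent.H7R2.LG
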