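import Mathlib

set_option autoImplicit false

/-! Definitions for the large girth graphs coming from unitary groups of division algebras of
degree `3` and `4` over function fields. A cyclic algebra `K(x){τ}`, `τ^(d+1) = x`, is represented
by matrices of size `d + 1` over `K[X]` (left regular representation, basis `1, τ, τ², ...`). -/

namespace Pool.Agent.H7R2.LG

open Matrix Polynomial

/-- The matrix of `τ`: ones just above the diagonal, `x` in the lower left corner. -/
def Pm {R : Type*} [CommRing R] (d : ℕ) (x : R) : Matrix (Fin (d + 1)) (Fin (d + 1)) R :=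
  Matrix.of fun i j =>
    if (i : ℕ) + 1 = (j : ℕ) then 1 else if (i : ℕ) = d ∧ (j : ℕ) = 0 then x else 0

/-- `M` is the matrix of an element of the cyclic algebra: `τ M = s(M) τ`. -/
def InO {R : Type*} [CommRing R] {d : ℕ} (s : R →+* R) (x : R)
    (M : Matrix (Fin (d + 1)) (Fin (d + 1)) R) : Prop :=
  Pm d x * M = M.map s * Pm d x

/-- The matrix of a coefficient `a`: `diag (a, s a, s² a, ...)`. -/
def Dm {R : Type*} [CommRing R] (d : ℕ) (s : R →+* R) (a : R) :
    Matrix (Fin (d + 1)) (Fin (d + 1)) R :=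
  Matrix.diagonal fun i => (s^[(i : ℕ)]) a

/-- Reduced words in the letters `(P, Q)`; the letter `(P, Q)` stands for `T_P T_Q⁻¹`. -/
def Red {ι : Type*} (L : List (ι × ι)) : Prop :=
  (∀ p ∈ L, p.1 ≠ p.2) ∧ L.IsChain (fun p q => p.2 ≠ q.1)

/-- The ring homomorphism `K[X] → K(X)`, `ψ` on `K` and `X ↦ X⁻¹`. -/
noncomputable def Psi {K : Type*} [Field K] (ψ : K →+* K) : K[X] →+* FractionRing K[X] :=
  eval₂RingHom ((algebraMap K[X] (FractionRing K[X])).comp (C.comp ψ))
    (algebraMap K[X] (FractionRing K[X]) X)⁻¹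

/-- The data needed for the construction. -/
structure Datum (K : Type) [Field K] (d : ℕ) (ι : Type) where
  σ : K →+* K
  hσ : ∀ a, σ^[d + 1] a = a
  ψ : K →+* K
  T : ι → Matrix (Fin (d + 1)) (Fin (d + 1)) K[X]
  hT : ∀ i, InO (mapRingHom σ) X (T i)
  c : ι → K
  hc : ∀ i, c i ≠ 0
  ε : K
  hε : ε * ε = 1
  hψε : ψ ε = ε
  hdet : ∀ i, (T i).det = C (c i) * (1 - C ε * X)
  J : Matrix (Fin (d + 1)) (Fin (d + 1)) K[X]
  hJ : J.det ≠ 0
  Θ : Matrix (Fin (d + 1)) (Fin (d + 1)) (FractionRing K[X])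
  hΘ : ∀ i, ((T i).map (Psi ψ))ᵀ * J.map (algebraMap K[X] (FractionRing K[X])) *
    (T i).map (algebraMap K[X] (FractionRing K[X])) = Θ
  hne : ∀ L : List (ι × ι), Red L → L ≠ [] →
    (L.map fun p => (T p.1 * (T p.2).adjugate).map (eval ε)).prod ≠ 0

theorem InO.mul {R : Type*} [CommRing R] {d : ℕ} {s : R →+* R} {x : R}
    {M N : Matrix (Fin (d + 1)) (Fin (d + 1)) R} (hM : InO s x M) (hN : InO s x N) :
    InO s x (M * N) := by
  unfold InO at *
  rw [← Matrix.mul_assoc, hM, Matrix.mul_assoc, hN, ← Matrix.mul_assoc]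
  congr 1
  simp [Matrix.map_mul]

theorem InO.one {R : Type*} [CommRing R] {d : ℕ} {s : R →+* R} {x : R} :
    InO s x (1 : Matrix (Fin (d + 1)) (Fin (d + 1)) R) := by
  unfold InO
  rw [Matrix.map_one s (map_zero s) (map_one s)]; simp

theorem InO.add {R : Type*} [CommRing R] {d : ℕ} {s : R →+* R} {x : R}
    {M N : Matrix (Fin (d + 1)) (Fin (d + 1)) R} (hM : InO s x M) (hN : InO s x N) :
    InO s x (M + N) := by
  unfold InO at *
  rw [Matrix.mul_add, hM, hN, Matrix.map_add s (map_add s), Matrix.add_mul]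

theorem InO.neg {R : Type*} [CommRing R] {d : ℕ} {s : R →+* R} {x : R}
    {M : Matrix (Fin (d + 1)) (Fin (d + 1)) R} (hM : InO s x M) :
    InO s x (-M) := by
  unfold InO at *
  have : (-M).map s = - (M.map s) := by ext i j; simp
  rw [Matrix.mul_neg, hM, this, Matrix.neg_mul]

theorem InO.sub {R : Type*} [CommRing R] {d : ℕ} {s : R →+* R} {x : R}
    {M N : Matrix (Fin (d + 1)) (Fin (d + 1)) R} (hM : InO s x M) (hN : InO s x N) :
    InO s x (M - N) := by
  rw [sub_eq_add_neg]; exact hM.add hN.neg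

theorem InO.inv {R : Type*} [CommRing R] {d : ℕ} {s : R →+* R} {x : R}
    {M N : Matrix (Fin (d + 1)) (Fin (d + 1)) R} (hM : InO s x M) (h1 : M * N = 1)
    (h2 : N * M = 1) : InO s x N := by
  unfold InO at *
  have h3 : N.map s * M.map s = 1 := by
    rw [← Matrix.map_mul, h2, Matrix.map_one s (map_zero s) (map_one s)]
  calc Pm d x * N = (N.map s * M.map s) * (Pm d x * N) := by rw [h3, Matrix.one_mul]
    _ = N.map s * ((M.map s * Pm d x) * N) := by simp only [Matrix.mul_assoc]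
    _ = N.map s * ((Pm d x * M) * N) := by rw [hM]
    _ = N.map s * Pm d x * (M * N) := by simp only [Matrix.mul_assoc]
    _ = N.map s * Pm d x := by rw [h1, Matrix.mul_one]

/-- The group `{M : M in the algebra, det M = constant in μ}` over power series. -/
noncomputable def Gs {K : Type} [Field K] (d : ℕ) (σ : K →+* K) (μ : Subgroup Kˣ) :
    Subgroup (GL (Fin (d + 1)) (PowerSeries K)) where
  carrier := {M | InO (PowerSeries.map σ) (PowerSeries.X : PowerSeries K)
      (M : Matrix (Fin (d + 1)) (Fin (d + 1)) (PowerSeries K)) ∧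
    ∃ u ∈ μ, (M : Matrix (Fin (d + 1)) (Fin (d + 1)) (PowerSeries K)).det =
      PowerSeries.C (u : K)}
  mul_mem' := by
    rintro M N ⟨hM, u, hu, hu'⟩ ⟨hN, v, hv, hv'⟩
    refine ⟨?_, u * v, mul_mem hu hv, ?_⟩
    · rw [Units.val_mul]; exact hM.mul hN
    · rw [Units.val_mul, Matrix.det_mul, hu', hv']; simp
  one_mem' := ⟨InO.one, 1, one_mem _, by simp⟩
  inv_mem' := by
    rintro M ⟨hM, u, hu, hu'⟩
    have h1 : (M : Matrix (Fin (d + 1)) (Fin (d + 1)) (PowerSeries K)) *
      ((M⁻¹ : GL (Fin (d + 1)) (PowerSeries K)) : Matrix _ _ _) = 1 := by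
        rw [← Units.val_mul]; simp
    have h2 : ((M⁻¹ : GL (Fin (d + 1)) (PowerSeries K)) : Matrix (Fin (d + 1)) (Fin (d + 1)) (PowerSeries K)) * (M : Matrix (Fin (d + 1)) (Fin (d + 1)) (PowerSeries K)) = 1 := by
        rw [← Units.val_mul]; simp
    refine ⟨hM.inv h1 h2, u⁻¹, inv_mem hu, ?_⟩
    have h3 := congrArg Matrix.det h1
    rw [Matrix.det_mul, hu', Matrix.det_one] at h3
    have h4 : PowerSeries.C ((u⁻¹ : Kˣ) : K) * PowerSeries.C (u : K) = 1 := by
      rw [← map_mul]; simp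
    calc _ = (PowerSeries.C ((u⁻¹ : Kˣ) : K) * PowerSeries.C (u : K)) * _ := by rw [h4, one_mul]
      _ = _ := by rw [mul_assoc, h3, mul_one]

/-- The `i`-th factor of the bound for the index of the congruence subgroups. -/
noncomputable def wt {K : Type} [Field K] (d : ℕ) (σ : K →+* K) (μ : Subgroup Kˣ) (i : ℕ) : ℕ :=
  if i = 0 then Nat.card {y : K // ∃ u ∈ μ, ∏ j ∈ Finset.range (d + 1), σ^[j] y = (u : K)}
  else if (d + 1) ∣ i then Nat.card {y : K // ∑ j ∈ Finset.range (d + 1), σ^[j] y = 0}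
  else Nat.card K

/-- The bound for the order of the quotient by the `m`-th congruence subgroup. -/
noncomputable def bnd {K : Type} [Field K] (d : ℕ) (σ : K →+* K) (μ : Subgroup Kˣ) (m : ℕ) : ℕ :=
  ∏ i ∈ Finset.range m, wt d σ μ i

end Pool.Agent.H7R2.LG
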