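import Pool.Agent.H2.L.R_seed8.H7R2.LG.Defs

set_option autoImplicit false

/-! Task D4c: `q³ + 1` isotropic points. -/

namespace Pool.Agent.H7R2.LG

open Matrix Polynomial

/-- the recurrence has period `8` -/
theorem D4c_rec {R : Type*} [CommRing R] (a0 a1 a2 a3 a4 a5 a6 a7 a8 : R)
    (u0 : IsUnit a0) (u1 : IsUnit a1) (u2 : IsUnit a2) (u3 : IsUnit a3) (u4 : IsUnit a4)
    (u5 : IsUnit a5) (u6 : IsUnit a6) (u7 : IsUnit a7)
    (r0 : 1 + a0 * a1 * a3 * a4 + a1 * a4 = a3 * a4)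
    (r1 : 1 + a1 * a2 * a4 * a5 + a2 * a5 = a4 * a5)
    (r2 : 1 + a2 * a3 * a5 * a6 + a3 * a6 = a5 * a6)
    (r3 : 1 + a3 * a4 * a6 * a7 + a4 * a7 = a6 * a7)
    (r4 : 1 + a4 * a5 * a7 * a8 + a5 * a8 = a7 * a8) :
    a8 = a0 ∧ a0 * a1 * a2 * a3 * a4 * a5 * a6 * a7 = 1 ∧
    1 + a0 * a3 + a0 * a3 * (a2 * a5) + a0 * a3 * (a2 * a5) * (a4 * a7) = 0 := by
  obtain ⟨A, hAd⟩ : ∃ A, A = a3 - a1 - a0 * a1 * a3 := ⟨_, rfl⟩
  obtain ⟨B, hBd⟩ : ∃ B, B = 1 - a2 * a3 + a0 * a1 * a2 * a3 := ⟨_, rfl⟩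
  obtain ⟨C, hCd⟩ : ∃ C, C = 1 + a0 * a3 - a2 * a3 := ⟨_, rfl⟩
  have hA : a4 * A = 1 := by rw [hAd]; linear_combination -r0
  have r1' : a5 * (a4 - a2 - a1 * a2 * a4) = 1 := by linear_combination -r1
  have hB : a5 * B = A := by
    rw [hBd]
    linear_combination A * r1' - a5 * (1 - a1 * a2) * hA + (a2 * a5) * hAd
  have r2' : a6 * (a5 - a3 - a2 * a3 * a5) = 1 := by linear_combination -r2
  have hC : a6 * a1 * C = -B := by
    linear_combination (-B) * r2' + a6 * (1 - a2 * a3) * hB + a6 * a1 * hCd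
      + a6 * (1 - a2 * a3) * hAd - a6 * a3 * hBd
  have uA : IsUnit A := IsUnit.of_mul_eq_one a4 (by rw [mul_comm]; exact hA)
  have uB : IsUnit B := by
    have h : B * (a5 * a4) = 1 := by linear_combination a4 * hB + hA
    exact IsUnit.of_mul_eq_one _ h
  have r3' : a7 * (a6 - a4 - a3 * a4 * a6) = 1 := by linear_combination -r3
  have hD : a7 * a0 * a2 * a3 = -C := by
    have h1 : a7 * (B * A + a1 * C - a3 * B) + a1 * C * A = 0 := by
      linear_combination (-(a1 * C * A)) * r3' + a7 * A * hC - a7 * a1 * C * hA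
        - a7 * a3 * (a6 * a1 * C * hA + hC)
    have h2 : B * A + a1 * C - a3 * B = a1 * a0 * a2 * a3 * A := by
      rw [hAd, hBd, hCd]; ring
    have h : a1 * A * (a7 * a0 * a2 * a3) = a1 * A * (-C) := by
      linear_combination h1 - a7 * h2
    exact (u1.mul uA).mul_left_cancel h
  have r4' : a8 * (a7 - a5 - a4 * a5 * a7) = 1 := by linear_combination -r4
  have hE : a8 = a0 := by
    have h1 : a8 * (-C * B - a0 * a2 * a3 * A + C) = a0 * a2 * a3 * B := by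
      linear_combination a0 * a2 * a3 * B * r4' - a8 * B * hD + a8 * a0 * a2 * a3 * hB
        + a8 * a4 * (a5 * B) * hD - a8 * a4 * C * hB - a8 * C * hA
    have h2 : -C * B - a0 * a2 * a3 * A + C = a2 * a3 * B := by
      rw [hAd, hBd, hCd]; ring
    have h : a2 * a3 * B * a8 = a2 * a3 * B * a0 := by
      linear_combination h1 - a8 * h2
    exact ((u2.mul u3).mul uB).mul_left_cancel h
  have uC : IsUnit C := by
    have : IsUnit (-C) := by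
      rw [← hD]
      exact (((u7.mul u0).mul u2).mul u3)
    simpa using this
  refine ⟨hE, ?_, ?_⟩
  · have h : A * B * C * (a0 * a1 * a2 * a3 * a4 * a5 * a6 * a7) = A * B * C * 1 := by
      calc A * B * C * (a0 * a1 * a2 * a3 * a4 * a5 * a6 * a7) =
          (a4 * A) * (a5 * B) * (a6 * a1 * C) * (a7 * a0 * a2 * a3) := by ring
        _ = 1 * A * (-B) * (-C) := by rw [hA, hB, hC, hD]
        _ = _ := by ring
    exact ((uA.mul uB).mul uC).mul_left_cancel h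
  · have h2 : B * (1 + a0 * a3) + a0 * a2 * a3 * A - C = 0 := by
      rw [hAd, hBd, hCd]; ring
    have h : B * (1 + a0 * a3 + a0 * a3 * (a2 * a5) + a0 * a3 * (a2 * a5) * (a4 * a7)) = B * 0 := by
      linear_combination a0 * a2 * a3 * hB + a4 * (a7 * a0 * a2 * a3) * hB + a4 * A * hD - C * hA
        + h2
    exact uB.mul_left_cancel h

theorem D4c_shift {R : Type*} [CommRing R] (φ : R →+* R) (q : ℕ) (hφ : ∀ x, φ x = x ^ q) (x : R)
    (h : 1 + x ^ ((1 + q) * (1 + q ^ 3)) + x ^ (q + q ^ 4) = x ^ (q ^ 3 + q ^ 4)) (i : ℕ) :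
    1 + x ^ (q ^ i) * x ^ (q ^ (i + 1)) * x ^ (q ^ (i + 3)) * x ^ (q ^ (i + 4)) +
      x ^ (q ^ (i + 1)) * x ^ (q ^ (i + 4)) = x ^ (q ^ (i + 3)) * x ^ (q ^ (i + 4)) := by
  induction i with
  | zero =>
    rw [← pow_add, ← pow_add, ← pow_add, ← pow_add, ← pow_add]
    convert h using 3 <;> ring
  | succ k ih =>
    have := congrArg φ ih
    simp only [map_add, map_mul, map_one] at this
    simp only [hφ, ← pow_mul, ← pow_succ] at this
    exact this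

theorem D4c_unit {R : Type*} [CommRing R] (q : ℕ) (hq : 1 < q) (x : R)
    (h : 1 + x ^ ((1 + q) * (1 + q ^ 3)) + x ^ (q + q ^ 4) = x ^ (q ^ 3 + q ^ 4)) : IsUnit x := by
  rw [isUnit_iff_dvd_one]
  have h1 : (1 : R) = x ^ (q ^ 3 + q ^ 4) - x ^ ((1 + q) * (1 + q ^ 3)) - x ^ (q + q ^ 4) := by
    rw [← h]; ring
  rw [h1]
  refine dvd_sub (dvd_sub ?_ ?_) ?_ <;> apply dvd_pow_self
  · positivity
  · positivity
  · positivity

/-- all consequences of the relation -/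
theorem D4c_all {R : Type*} [CommRing R] (φ : R →+* R) (q : ℕ) (hq : 1 < q)
    (hφ : ∀ x, φ x = x ^ q) (x : R)
    (h : 1 + x ^ ((1 + q) * (1 + q ^ 3)) + x ^ (q + q ^ 4) = x ^ (q ^ 3 + q ^ 4)) :
    x ^ (q ^ 8) = x ∧
    x * x ^ q * x ^ (q ^ 2) * x ^ (q ^ 3) * x ^ (q ^ 4) * x ^ (q ^ 5) * x ^ (q ^ 6) * x ^ (q ^ 7)
      = 1 ∧
    1 + x * x ^ (q ^ 3) + x * x ^ (q ^ 3) * (x ^ (q ^ 2) * x ^ (q ^ 5)) +
      x * x ^ (q ^ 3) * (x ^ (q ^ 2) * x ^ (q ^ 5)) * (x ^ (q ^ 4) * x ^ (q ^ 7)) = 0 := by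
  have u := D4c_unit q hq x h
  have r0 := D4c_shift φ q hφ x h 0
  have r1 := D4c_shift φ q hφ x h 1
  have r2 := D4c_shift φ q hφ x h 2
  have r3 := D4c_shift φ q hφ x h 3
  have r4 := D4c_shift φ q hφ x h 4
  simp only [Nat.reduceAdd, zero_add, pow_zero, pow_one] at r0 r1 r2 r3 r4
  exact D4c_rec x (x ^ q) (x ^ (q ^ 2)) (x ^ (q ^ 3)) (x ^ (q ^ 4)) (x ^ (q ^ 5)) (x ^ (q ^ 6))
    (x ^ (q ^ 7)) (x ^ (q ^ 8)) u (u.pow _) (u.pow _) (u.pow _) (u.pow _) (u.pow _) (u.pow _)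
    (u.pow _) r0 r1 r2 r3 r4

/-- the polynomial -/
noncomputable def D4c_f (K : Type) [Field K] (q : ℕ) : K[X] :=
  X ^ ((1 + q) * (1 + q ^ 3)) + (X ^ (q + q ^ 4) - X ^ (q ^ 3 + q ^ 4) + 1)

theorem D4c_deg (K : Type) [Field K] (q : ℕ) (hq : 1 < q) :
    (D4c_f K q).natDegree = (1 + q) * (1 + q ^ 3) ∧ (D4c_f K q).Monic := by
  have h1 : (X ^ (q + q ^ 4) - X ^ (q ^ 3 + q ^ 4) + 1 : K[X]).degree <
      ((1 + q) * (1 + q ^ 3) : ℕ) := by
    have hlt : q + q ^ 4 < (1 + q) * (1 + q ^ 3) := by nlinarith [pow_pos (by omega : 0 < q) 3]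
    have hlt2 : q ^ 3 + q ^ 4 < (1 + q) * (1 + q ^ 3) := by
      nlinarith [pow_pos (by omega : 0 < q) 3]
    refine lt_of_le_of_lt (degree_add_le _ _) (max_lt (lt_of_le_of_lt (degree_sub_le _ _)
      (max_lt ?_ ?_)) ?_)
    · rw [degree_X_pow]; exact_mod_cast hlt
    · rw [degree_X_pow]; exact_mod_cast hlt2
    · rw [degree_one]; exact_mod_cast (by positivity : 0 < (1 + q) * (1 + q ^ 3))
  have h2 : (D4c_f K q).Monic := monic_X_pow_add h1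
  refine ⟨?_, h2⟩
  rw [D4c_f, natDegree_add_eq_left_of_degree_lt (by rw [degree_X_pow]; exact h1), natDegree_X_pow]

theorem D4c_prime {K : Type} [Field K] [Finite K] (q : ℕ) (hK : Nat.card K = q ^ 8) :
    ∃ p k : ℕ, p.Prime ∧ CharP K p ∧ q = p ^ k := by
  haveI : Fintype K := Fintype.ofFinite K
  obtain ⟨p, hp⟩ := CharP.exists K
  obtain ⟨n, hp', hn⟩ := FiniteField.card K p
  rw [← Nat.card_eq_fintype_card, hK] at hn
  have hd : q ∣ p ^ (n : ℕ) := by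
    rw [← hn]; exact dvd_pow_self q (by norm_num)
  obtain ⟨k, -, hk⟩ := (Nat.dvd_prime_pow hp').1 hd
  exact ⟨p, k, hp', hp, hk⟩

theorem D4c_eval {K S : Type} [Field K] [CommRing S] (q : ℕ) (g : K →+* S) (y : S) :
    eval₂ g y (D4c_f K q) = y ^ ((1 + q) * (1 + q ^ 3)) +
      (y ^ (q + q ^ 4) - y ^ (q ^ 3 + q ^ 4) + 1) := by
  rw [← coe_eval₂RingHom, D4c_f]
  simp only [map_add, map_sub, map_pow, map_one, coe_eval₂RingHom, eval₂_X]

theorem D4c_dvd {K : Type} [Field K] [Finite K] (q : ℕ) (hq : 1 < q) (hK : Nat.card K = q ^ 8) :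
    D4c_f K q ∣ X ^ (q ^ 8) - X := by
  obtain ⟨p, k, hp, hc, hk⟩ := D4c_prime q hK
  haveI := hc
  haveI : Fact p.Prime := ⟨hp⟩
  obtain ⟨hdeg, hmon⟩ := D4c_deg K q hq
  haveI : Nontrivial (AdjoinRoot (D4c_f K q)) := by
    apply AdjoinRoot.nontrivial
    intro h0
    have := natDegree_eq_zero_iff_degree_le_zero.mpr (le_of_eq h0)
    rw [hdeg] at this
    have h3 : 0 < (1 + q) * (1 + q ^ 3) := by positivity
    omega
  haveI : CharP (AdjoinRoot (D4c_f K q)) p :=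
    charP_of_injective_algebraMap (algebraMap K (AdjoinRoot (D4c_f K q))).injective p
  have hroot : eval₂ (AdjoinRoot.of (D4c_f K q)) (AdjoinRoot.root (D4c_f K q)) (D4c_f K q) = 0 :=
    AdjoinRoot.eval₂_root _
  have hrel : 1 + (AdjoinRoot.root (D4c_f K q)) ^ ((1 + q) * (1 + q ^ 3)) +
      (AdjoinRoot.root (D4c_f K q)) ^ (q + q ^ 4) =
      (AdjoinRoot.root (D4c_f K q)) ^ (q ^ 3 + q ^ 4) := by
    rw [D4c_eval] at hroot
    linear_combination hroot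
  have := (D4c_all (iterateFrobenius (AdjoinRoot (D4c_f K q)) p k) q hq
    (fun x => by rw [iterateFrobenius_def, ← hk]) _ hrel).1
  rw [← AdjoinRoot.mk_eq_zero, map_sub, map_pow, AdjoinRoot.mk_X, this, sub_self]

/-- the roots of the polynomial in `K` -/
theorem D4c_roots {K : Type} [Field K] [Finite K] (q : ℕ) (hq : 1 < q)
    (hK : Nat.card K = q ^ 8) : ∃ Z : Finset K, Z.card = (1 + q) * (1 + q ^ 3) ∧
      ∀ x ∈ Z, 1 + x ^ ((1 + q) * (1 + q ^ 3)) + x ^ (q + q ^ 4) = x ^ (q ^ 3 + q ^ 4) := by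
  classical
  haveI : Fintype K := Fintype.ofFinite K
  have hc : Fintype.card K = q ^ 8 := by rw [← hK, Nat.card_eq_fintype_card]
  obtain ⟨hdeg, hmon⟩ := D4c_deg K q hq
  have hd := D4c_dvd q hq hK
  have hr : (X ^ (q ^ 8) - X : K[X]).roots = Finset.univ.val := by
    rw [← hc]; exact FiniteField.roots_X_pow_card_sub_X K
  have h1q : 1 < q ^ 8 := Nat.one_lt_pow (by norm_num) hq
  have hne : (X ^ (q ^ 8) - X : K[X]) ≠ 0 := FiniteField.X_pow_card_sub_X_ne_zero K h1q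
  have hs : (X ^ (q ^ 8) - X : K[X]).Splits := by
    rw [splits_iff_card_roots, hr, FiniteField.X_pow_card_sub_X_natDegree_eq K h1q, ← hc]
    rfl
  have hsf : (D4c_f K q).Splits := hs.of_dvd hne hd
  have hle : (D4c_f K q).roots ≤ Finset.univ.val := by
    rw [← hr]; exact roots.le_of_dvd hne hd
  have hnd : (D4c_f K q).roots.Nodup := Multiset.nodup_of_le hle Finset.univ.nodup
  refine ⟨(D4c_f K q).roots.toFinset, ?_, ?_⟩
  · rw [Multiset.toFinset_card_of_nodup hnd, ← hdeg]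
    exact splits_iff_card_roots.mp hsf
  · intro x hx
    rw [Multiset.mem_toFinset, mem_roots hmon.ne_zero, IsRoot.def] at hx
    simp only [D4c_f, eval_add, eval_sub, eval_pow, eval_X, eval_one] at hx
    linear_combination hx

/-- Hilbert 90 for `x ↦ x^(q²)` -/
theorem D4c_h90 {K : Type} [Field K] [Finite K] (q : ℕ) (hq : 1 < q)
    (hK : Nat.card K = q ^ 8) (y : K) (hy : y ^ (1 + q ^ 2 + q ^ 4 + q ^ 6) = 1) :
    ∃ e : K, e ≠ 0 ∧ e ^ (q ^ 2) = y * e := by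
  have hy0 : y ≠ 0 := by
    rintro rfl
    rw [zero_pow (by positivity)] at hy
    exact zero_ne_one hy
  obtain ⟨g, hg⟩ := IsCyclic.exists_monoid_generator (α := Kˣ)
  obtain ⟨k, hk⟩ := hg (Units.mk0 y hy0)
  have ho : orderOf g = q ^ 8 - 1 := by
    rw [orderOf_eq_card_of_forall_mem_powers hg, Nat.card_units, hK]
  have h1 : g ^ (k * (1 + q ^ 2 + q ^ 4 + q ^ 6)) = 1 := by
    have hk' : g ^ k = Units.mk0 y hy0 := hk
    rw [pow_mul, hk']
    ext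
    simpa using hy
  have h2 : q ^ 8 - 1 ∣ k * (1 + q ^ 2 + q ^ 4 + q ^ 6) := by
    rw [← ho]; exact orderOf_dvd_of_pow_eq_one h1
  have hq2 : 1 ≤ q ^ 2 := Nat.one_le_pow _ _ (by omega)
  have h3 : q ^ 8 - 1 = (q ^ 2 - 1) * (1 + q ^ 2 + q ^ 4 + q ^ 6) := by
    obtain ⟨c, hc⟩ : ∃ c, q ^ 2 = c + 1 := ⟨q ^ 2 - 1, by omega⟩
    have e8 : q ^ 8 = (q ^ 2) ^ 4 := by ring
    have e4 : q ^ 4 = (q ^ 2) ^ 2 := by ring
    have e6 : q ^ 6 = (q ^ 2) ^ 3 := by ring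
    rw [e8, e4, e6, hc]
    have : (c + 1) ^ 4 = (c + 1 - 1) * (1 + (c + 1) + (c + 1) ^ 2 + (c + 1) ^ 3) + 1 := by
      rw [Nat.add_sub_cancel]; ring
    omega
  rw [h3] at h2
  obtain ⟨c, hc⟩ : q ^ 2 - 1 ∣ k := Nat.dvd_of_mul_dvd_mul_right (by positivity) h2
  refine ⟨((g ^ c : Kˣ) : K), Units.ne_zero _, ?_⟩
  have hyk : y = ((g ^ k : Kˣ) : K) := by
    have hk' : g ^ k = Units.mk0 y hy0 := hk
    rw [hk']; rfl
  rw [hyk, ← Units.val_mul, ← Units.val_pow_eq_pow_val, ← pow_add, ← pow_mul]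
  congr 2
  rw [hc]
  obtain ⟨d, hd⟩ : ∃ d, q ^ 2 = d + 1 := ⟨q ^ 2 - 1, by omega⟩
  rw [hd, Nat.add_sub_cancel]; ring

/-- a `q+1`-to-one map -/
theorem D4c_image {K : Type} [Field K] [Finite K] (q : ℕ) (hq : 1 < q)
    (ψ : K →+* K) (hψ : ∀ a, ψ a = a ^ q) [DecidableEq K] (Z : Finset K)
    (hZ : Z.card = (1 + q) * (1 + q ^ 3))
    (h : ∀ x ∈ Z, 1 + x ^ ((1 + q) * (1 + q ^ 3)) + x ^ (q + q ^ 4) = x ^ (q ^ 3 + q ^ 4)) :
    q ^ 3 + 1 ≤ (Z.image fun x => x * x ^ (q ^ 3)).card := by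
  have hinj : ∀ n : ℕ, ∀ a b : K, a ^ (q ^ n) = b ^ (q ^ n) → a = b := by
    intro n
    induction n with
    | zero => intro a b hab; simpa using hab
    | succ k ih =>
      intro a b hab
      rw [pow_succ, pow_mul, pow_mul, ← hψ, ← hψ] at hab
      exact ih a b (ψ.injective hab)
  have key : Z.card ≤ (q + 1) * (Z.image fun x => x * x ^ (q ^ 3)).card := by
    apply Finset.card_le_mul_card_image
    intro y hy
    rw [Finset.mem_image] at hy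
    obtain ⟨a, ha, rfl⟩ := hy
    have hsub : (Z.filter fun x => x * x ^ (q ^ 3) = a * a ^ (q ^ 3)) ⊆
        (nthRoots (q + 1) (a ^ (q + 1))).toFinset := by
      intro b hb
      rw [Finset.mem_filter] at hb
      obtain ⟨hb, hab⟩ := hb
      rw [Multiset.mem_toFinset, mem_nthRoots (by omega)]
      apply hinj 3
      have e1 := h a ha
      have e2 := h b hb
      have hab2 : b ^ q * b ^ (q ^ 4) = a ^ q * a ^ (q ^ 4) := by
        have := congrArg ψ hab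
        rw [map_mul, map_mul, hψ, hψ, hψ, hψ, ← pow_mul, ← pow_mul, ← pow_succ] at this
        exact this
      have f1 : ∀ x : K, x ^ ((1 + q) * (1 + q ^ 3)) = (x * x ^ (q ^ 3)) * (x ^ q * x ^ (q ^ 4)) := by
        intro x; rw [← pow_succ', ← pow_add, ← pow_add]; congr 1; ring
      have f2 : ∀ x : K, x ^ (q + q ^ 4) = x ^ q * x ^ (q ^ 4) := fun x => pow_add _ _ _
      have f3 : ∀ x : K, x ^ (q ^ 3 + q ^ 4) = (x ^ (q + 1)) ^ (q ^ 3) := by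
        intro x; rw [← pow_mul]; congr 1; ring
      rw [f1, f2, f3] at e1 e2
      rw [← e1, ← e2, hab, hab2]
    refine (Finset.card_le_card hsub).trans ((Multiset.toFinset_card_le _).trans ?_)
    exact card_nthRoots _ _
  rw [hZ] at key
  have : (q + 1) * (q ^ 3 + 1) ≤ (q + 1) * (Z.image fun x => x * x ^ (q ^ 3)).card := by
    calc (q + 1) * (q ^ 3 + 1) = (1 + q) * (1 + q ^ 3) := by ring
      _ ≤ _ := key
  exact Nat.le_of_mul_le_mul_left this (by omega)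

theorem D4c_even {K : Type} [Field K] [Finite K] (q : ℕ)
    (hK : Nat.card K = q ^ 8) (y e : K) (he : e ≠ 0) (hy : e ^ (q ^ 2) = y * e) (hq2 : Even q) :
    ∃ e : K, e ≠ 0 ∧ e ^ (q ^ 2) = y * e ∧ e * e ^ (q ^ 2) * e ^ (q ^ 4) * e ^ (q ^ 6) = 1 := by
  haveI : Fintype K := Fintype.ofFinite K
  have hfr : ∀ b : K, b ^ (q ^ 8) = b := by
    intro b
    rw [← hK, Nat.card_eq_fintype_card, FiniteField.pow_card]
  obtain ⟨N, hN⟩ : ∃ N, N = e * e ^ (q ^ 2) * e ^ (q ^ 4) * e ^ (q ^ 6) := ⟨_, rfl⟩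
  have hN0 : N ≠ 0 := by
    rw [hN]
    exact mul_ne_zero (mul_ne_zero (mul_ne_zero he (pow_ne_zero _ he)) (pow_ne_zero _ he))
      (pow_ne_zero _ he)
  have hNq : N ^ (q ^ 2) = N := by
    have pp : ∀ (b : K) (m n : ℕ), (b ^ (q ^ m)) ^ (q ^ n) = b ^ (q ^ (m + n)) := by
      intro b m n; rw [← pow_mul, ← pow_add]
    rw [hN, mul_pow, mul_pow, mul_pow, pp, pp, pp]
    simp only [Nat.reduceAdd]
    rw [hfr]
    ring
  obtain ⟨m, hm⟩ := hq2
  have h4 : q ^ 2 = 4 * m ^ 2 := by rw [hm]; ring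
  obtain ⟨c, hc⟩ : ∃ c, c = (N⁻¹) ^ (m ^ 2) := ⟨_, rfl⟩
  have hcq : c ^ (q ^ 2) = c := by
    rw [hc, ← pow_mul, mul_comm, pow_mul, inv_pow, hNq]
  have hc4 : c ^ 4 * N = 1 := by
    rw [hc, ← pow_mul, mul_comm (m ^ 2) 4, ← h4, inv_pow, hNq, inv_mul_cancel₀ hN0]
  have hcq4 : c ^ (q ^ 4) = c := by
    have : q ^ 4 = q ^ 2 * q ^ 2 := by ring
    rw [this, pow_mul, hcq, hcq]
  have hcq6 : c ^ (q ^ 6) = c := by
    have : q ^ 6 = q ^ 4 * q ^ 2 := by ring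
    rw [this, pow_mul, hcq4, hcq]
  have hc0 : c ≠ 0 := by rw [hc]; exact pow_ne_zero _ (inv_ne_zero hN0)
  refine ⟨c * e, mul_ne_zero hc0 he, ?_, ?_⟩
  · rw [mul_pow, hcq, hy]; ring
  · rw [mul_pow, mul_pow, mul_pow, hcq, hcq4, hcq6, ← hc4, hN]; ring

/-- the point attached to a root -/
theorem D4c_point {K : Type} [Field K] [Finite K] (q : ℕ) (hq : 1 < q)
    (hK : Nat.card K = q ^ 8) (ψ : K →+* K) (hψ : ∀ a, ψ a = a ^ q) (x : K)
    (h : 1 + x ^ ((1 + q) * (1 + q ^ 3)) + x ^ (q + q ^ 4) = x ^ (q ^ 3 + q ^ 4)) :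
    ∃ e : K, e ≠ 0 ∧ ψ^[2] e = (x * x ^ (q ^ 3)) * e ∧
      e + ψ^[2] e + ψ^[4] e + ψ^[6] e = 0 ∧
      e * ψ e + ψ e * ψ^[6] e + ψ^[6] e * ψ^[7] e = ψ^[3] e * ψ^[4] e ∧
      (Even q → e * ψ^[2] e * ψ^[4] e * ψ^[6] e = ψ e * ψ^[3] e * ψ^[5] e * ψ^[7] e) := by
  have hs : ∀ (n : ℕ) (b : K), ψ^[n] b = b ^ (q ^ n) := by
    intro n b
    induction n with
    | zero => simp
    | succ k ih => rw [Function.iterate_succ_apply', ih, hψ, ← pow_mul, ← pow_succ]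
  obtain ⟨h8, hP, hT⟩ := D4c_all ψ q hq hψ x h
  have r6 := D4c_shift ψ q hψ x h 6
  simp only [Nat.reduceAdd] at r6
  have h9 : x ^ (q ^ 9) = x ^ q := by
    have : q ^ 9 = q ^ 8 * q := by ring
    rw [this, pow_mul, h8]
  have h10 : x ^ (q ^ 10) = x ^ (q ^ 2) := by
    have : q ^ 10 = q ^ 8 * q ^ 2 := by ring
    rw [this, pow_mul, h8]
  rw [h9, h10] at r6
  have hy1 : (x * x ^ (q ^ 3)) ^ (1 + q ^ 2 + q ^ 4 + q ^ 6) = 1 := by
    have pp : ∀ (b : K) (m n : ℕ), (b ^ (q ^ m)) ^ (q ^ n) = b ^ (q ^ (m + n)) := by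
      intro b m n; rw [← pow_mul, ← pow_add]
    rw [← hP, pow_add, pow_add, pow_add, pow_one, mul_pow, mul_pow, mul_pow, pp, pp, pp]
    simp only [Nat.reduceAdd]
    rw [h9]
    ring
  obtain ⟨e', he'0, he'⟩ := D4c_h90 q hq hK _ hy1
  obtain ⟨e, he0, he, heN⟩ : ∃ e : K, e ≠ 0 ∧ e ^ (q ^ 2) = (x * x ^ (q ^ 3)) * e ∧
      (Even q → e * e ^ (q ^ 2) * e ^ (q ^ 4) * e ^ (q ^ 6) = 1) := by
    by_cases hev : Even q
    · obtain ⟨e, h1, h2, h3⟩ := D4c_even q hK _ e' he'0 he' hev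
      exact ⟨e, h1, h2, fun _ => h3⟩
    · exact ⟨e', he'0, he', fun h => absurd h hev⟩
  have en : ∀ n, ψ^[n + 2] e = x ^ (q ^ n) * x ^ (q ^ (n + 3)) * ψ^[n] e := by
    intro n
    have e1 : q ^ (n + 2) = q ^ 2 * q ^ n := by ring
    have e2 : q ^ (n + 3) = q ^ 3 * q ^ n := by ring
    rw [hs, hs, e1, e2, pow_mul, he, mul_pow, mul_pow, ← pow_mul]
  have e2 := en 0
  have e3 := en 1
  have e4 := en 2
  have e5 := en 3
  have e6 := en 4
  have e7 := en 5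
  simp only [Nat.reduceAdd, Function.iterate_zero, id_eq, Function.iterate_one, pow_zero,
    pow_one, zero_add] at e2 e3 e4 e5 e6 e7
  rw [h8] at e7
  rw [e3] at e5
  rw [e5] at e7
  rw [e2] at e4
  rw [e4] at e6
  refine ⟨e, he0, e2, ?_, ?_, ?_⟩
  · rw [e2, e4, e6]
    linear_combination e * hT
  · rw [e3, e4, e6, e7]
    generalize x ^ q = a1 at *
    generalize x ^ q ^ 2 = a2 at *
    generalize x ^ q ^ 3 = a3 at *
    generalize x ^ q ^ 4 = a4 at *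
    generalize x ^ q ^ 5 = a5 at *
    generalize x ^ q ^ 6 = a6 at *
    generalize x ^ q ^ 7 = a7 at *
    linear_combination (e * ψ e) * ((x * a3 * a4 * a5) * r6 - (1 - x * a3 * a4 * a5) * hP)
  · intro hev
    have hn := heN hev
    rw [← hs, ← hs, ← hs] at hn
    have hn' := congrArg ψ hn
    rw [map_mul, map_mul, map_mul, map_one, ← Function.iterate_succ_apply' ψ 2 e,
      ← Function.iterate_succ_apply' ψ 4 e, ← Function.iterate_succ_apply' ψ 6 e] at hn'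
    rw [hn]
    exact hn'.symm

theorem count4 {K : Type} [Field K] [Finite K] (q : ℕ) (hq : 1 < q) (hK : Nat.card K = q ^ 8)
    (ψ : K →+* K) (hψ : ∀ a, ψ a = a ^ q) :
    ∃ e : Fin (q ^ 3 + 1) → K, (∀ i, e i ≠ 0) ∧
      (∀ i, e i + ψ^[2] (e i) + ψ^[4] (e i) + ψ^[6] (e i) = 0) ∧
      (∀ i, e i * ψ (e i) + ψ (e i) * ψ^[6] (e i) + ψ^[6] (e i) * ψ^[7] (e i) =
        ψ^[3] (e i) * ψ^[4] (e i)) ∧
      (∀ i j, i ≠ j → e i * ψ^[2] (e j) ≠ e j * ψ^[2] (e i)) ∧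
      (Even q → ∀ i, e i * ψ^[2] (e i) * ψ^[4] (e i) * ψ^[6] (e i) =
        ψ (e i) * ψ^[3] (e i) * ψ^[5] (e i) * ψ^[7] (e i)) := by
  classical
  obtain ⟨Z, hZ, hZ'⟩ := D4c_roots q hq hK
  have hc := D4c_image q hq ψ hψ Z hZ hZ'
  obtain ⟨Y, hY, hYc⟩ := Finset.exists_subset_card_eq hc
  have hpt : ∀ y : Y, ∃ e : K, e ≠ 0 ∧ ψ^[2] e = (y : K) * e ∧
      e + ψ^[2] e + ψ^[4] e + ψ^[6] e = 0 ∧
      e * ψ e + ψ e * ψ^[6] e + ψ^[6] e * ψ^[7] e = ψ^[3] e * ψ^[4] e ∧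
      (Even q → e * ψ^[2] e * ψ^[4] e * ψ^[6] e = ψ e * ψ^[3] e * ψ^[5] e * ψ^[7] e) := by
    intro y
    have hy := hY y.2
    rw [Finset.mem_image] at hy
    obtain ⟨x, hx, hxy⟩ := hy
    obtain ⟨e, h⟩ := D4c_point q hq hK ψ hψ x (hZ' x hx)
    exact ⟨e, by rw [← hxy]; exact h⟩
  choose E h1 h2 h3 h4 h5 using hpt
  let g : Fin (q ^ 3 + 1) ≃ Y := (Finset.equivFinOfCardEq hYc).symm
  refine ⟨fun i => E (g i), fun i => h1 _, fun i => h3 _, fun i => h4 _, ?_, fun hev i => h5 _ hev⟩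
  intro i j hij h
  rw [h2, h2] at h
  apply hij
  apply g.injective
  apply Subtype.ext
  have hne : E (g i) * E (g j) ≠ 0 := mul_ne_zero (h1 _) (h1 _)
  apply mul_left_cancel₀ hne
  linear_combination -h

end Pool.Agent.H7R2.LG
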