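import Pool.Agent.H2.L.R_seed8.H7R2.LG.Defs

set_option autoImplicit false

namespace Pool.Agent.H7R2.LG

open Matrix Polynomial

namespace D3

theorem prod_rankone {K : Type*} [Field K] {n : Type*} [Fintype n] [DecidableEq n] {ι : Type*}
    (a : ι → n → K) (A : ι × ι → Matrix n n K) (kap : ι × ι → K)
    (hA : ∀ p : ι × ι, A p = kap p • vecMulVec (a p.1) (a p.2))
    (hk : ∀ p : ι × ι, p.1 ≠ p.2 → kap p ≠ 0)
    (hd : ∀ i j, i ≠ j → a i ⬝ᵥ a j ≠ 0) :
    ∀ (L : List (ι × ι)) (hL : L ≠ []), Red L → ∃ s : K, s ≠ 0 ∧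
      (L.map A).prod = s • vecMulVec (a (L.head hL).1) (a (L.getLast hL).2) := by
  intro L
  induction L with
  | nil => intro h; exact absurd rfl h
  | cons p L ih =>
    intro _ hR
    rcases List.eq_nil_or_concat L with h | _
    · subst h
      refine ⟨kap p, hk p (hR.1 p (by simp)), ?_⟩
      simp [hA p]
    · by_cases hL : L = []
      · subst hL
        refine ⟨kap p, hk p (hR.1 p (by simp)), ?_⟩
        simp [hA p]
      · have hR' : Red L := ⟨fun q hq => hR.1 q (List.mem_cons_of_mem _ hq), hR.2.tail⟩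
        obtain ⟨s, hs, hs'⟩ := ih hL hR'
        have hch : p.2 ≠ (L.head hL).1 := by
          obtain ⟨q, L', rfl⟩ := List.exists_cons_of_ne_nil hL
          have := hR.2
          rw [List.isChain_cons_cons] at this
          exact this.1
        refine ⟨kap p * s * (a p.2 ⬝ᵥ a (L.head hL).1), ?_, ?_⟩
        · exact mul_ne_zero (mul_ne_zero (hk p (hR.1 p (by simp))) hs) (hd _ _ hch)
        · rw [List.map_cons, List.prod_cons, hs', hA p, List.head_cons,
            List.getLast_cons hL, Matrix.smul_mul, Matrix.mul_smul,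
            Matrix.vecMulVec_mul_vecMulVec, smul_smul]
          rw [Matrix.vecMulVec_smul, smul_smul]

/-- the matrix of `(x₀/x₁) τ + x₁/x₀` -/
noncomputable def T3 {K : Type} [Field K] (σ : K →+* K) (x : K) : Matrix (Fin 3) (Fin 3) K[X] :=
  !![C (σ x / x), C (x / σ x), 0;
     0, C (σ (σ x) / σ x), C (σ x / σ (σ x));
     X * C (σ (σ x) / x), 0, C (x / σ (σ x))]

/-- the vector `(x₂, -x₀, x₁)` -/
def av {K : Type} [Field K] (σ : K →+* K) (x : K) : Fin 3 → K := ![σ (σ x), -x, σ x]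

theorem T3_eval {K : Type} [Field K] (σ : K →+* K) (x : K) :
    (T3 σ x).map (eval (-1)) = !![σ x / x, x / σ x, 0; 0, σ (σ x) / σ x, σ x / σ (σ x);
      -(σ (σ x) / x), 0, x / σ (σ x)] := by
  ext i j
  fin_cases i <;> fin_cases j <;> simp [T3]

theorem letter {K : Type} [Field K] (σ : K →+* K) (x y : K) (hx : x ≠ 0) (hy : y ≠ 0)
    (hix : x ^ 2 + σ x ^ 2 + σ (σ x) ^ 2 = 0) (hiy : y ^ 2 + σ y ^ 2 + σ (σ y) ^ 2 = 0) :
    (T3 σ x * (T3 σ y).adjugate).map (eval (-1)) =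
      ((σ x ^ 2 * y ^ 2 - x ^ 2 * σ y ^ 2) /
        (x * σ x * σ (σ x) * (y * σ y * σ (σ y)))) • vecMulVec (av σ x) (av σ y) := by
  have h1 : σ x ≠ 0 := (map_ne_zero σ).2 hx
  have h2 : σ (σ x) ≠ 0 := (map_ne_zero σ).2 h1
  have k1 : σ y ≠ 0 := (map_ne_zero σ).2 hy
  have k2 : σ (σ y) ≠ 0 := (map_ne_zero σ).2 k1
  have e : (T3 σ x * (T3 σ y).adjugate).map (eval (-1)) =
      ((T3 σ x).map (eval (-1))) * ((T3 σ y).map (eval (-1))).adjugate := by
    have := (evalRingHom (-1 : K)).map_matrix_mul (T3 σ x) (T3 σ y).adjugate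
    have e1 : ((T3 σ y).adjugate).map (eval (-1)) = ((T3 σ y).map (eval (-1))).adjugate := by
      have := RingHom.map_adjugate (evalRingHom (-1 : K)) (T3 σ y)
      simpa using this
    rw [← e1]
    ext i j
    have := RingHom.map_matrix_mul (T3 σ x) (T3 σ y).adjugate i j (evalRingHom (-1 : K))
    simpa using this
  rw [e, T3_eval, T3_eval, Matrix.adjugate_fin_three]
  generalize hx1 : σ x = x1 at *
  generalize hx2 : σ x1 = x2 at *
  generalize hy1 : σ y = y1 at *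
  generalize hy2 : σ y1 = y2 at *
  have hx2' : x2 ^ 2 = - x ^ 2 - x1 ^ 2 := by linear_combination hix
  have hy2' : y2 ^ 2 = - y ^ 2 - y1 ^ 2 := by linear_combination hiy
  ext i j
  fin_cases i <;> fin_cases j <;> simp [Matrix.mul_apply, Fin.sum_univ_three, av, vecMulVec_apply, hx1, hx2, hy1, hy2] <;> field_simp <;>
    first
    | ring1
    | (rw [hx2', hy2']; ring1)

end D3

open D3 in
theorem datum3 {K : Type} [Field K] (σ : K →+* K) (hσ : ∀ a, σ (σ (σ a)) = a) {ι : Type}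
    (ξ : ι → K) (h0 : ∀ i, ξ i ≠ 0)
    (hiso : ∀ i, ξ i ^ 2 + σ (ξ i) ^ 2 + σ (σ (ξ i)) ^ 2 = 0)
    (hind : ∀ i j, i ≠ j → ξ i * σ (ξ j) ≠ ξ j * σ (ξ i)) :
    ∃ D : Datum K 2 ι, D.σ = σ ∧ ∀ i, D.c i = 1 := by
  have h1 : ∀ i, σ (ξ i) ≠ 0 := fun i => (map_ne_zero σ).2 (h0 i)
  have h2 : ∀ i, σ (σ (ξ i)) ≠ 0 := fun i => (map_ne_zero σ).2 (h1 i)
  have hinj : Function.Injective σ := σ.injective
  -- non-vanishing of `x₁ y₀ + x₀ y₁`
  have hplus : ∀ i j, i ≠ j → σ (ξ i) * ξ j + ξ i * σ (ξ j) ≠ 0 := by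
    intro i j hij h
    have e0 : σ (ξ i) * ξ j = - (ξ i * σ (ξ j)) := by linear_combination h
    have e1 : σ (σ (ξ i)) * σ (ξ j) = - (σ (ξ i) * σ (σ (ξ j))) := by
      have := congrArg σ e0
      simpa using this
    have e2 : ξ i * σ (σ (ξ j)) = - (σ (σ (ξ i)) * ξ j) := by
      have := congrArg σ e1
      simpa [hσ] using this
    -- z = x/y: z1 = -z0, z2 = -z1, z0 = -z2, so z0 = -z0
    have e3 : ξ i * σ (ξ j) * (ξ j * σ (σ (ξ j))) = -(ξ i * σ (ξ j) * (ξ j * σ (σ (ξ j)))) := by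
      have a1 : ξ i * σ (σ (ξ j)) * σ (ξ j) * ξ j = - (σ (σ (ξ i)) * ξ j) * σ (ξ j) * ξ j := by
        rw [e2]
      have a2 : σ (σ (ξ i)) * ξ j * σ (ξ j) * ξ j = - (σ (ξ i) * σ (σ (ξ j))) * ξ j * ξ j := by
        linear_combination (ξ j * ξ j) * e1
      have a3 : σ (ξ i) * σ (σ (ξ j)) * ξ j * ξ j = - (ξ i * σ (ξ j)) * σ (σ (ξ j)) * ξ j := by
        linear_combination (σ (σ (ξ j)) * ξ j) * e0
      linear_combination a1 - a2 + a3
    have hne : ξ i * σ (ξ j) * (ξ j * σ (σ (ξ j))) ≠ 0 :=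
      mul_ne_zero (mul_ne_zero (h0 i) (h1 j)) (mul_ne_zero (h0 j) (h2 j))
    have h2' : (2 : K) = 0 := by
      have : (2 : K) * (ξ i * σ (ξ j) * (ξ j * σ (σ (ξ j)))) = 0 := by
        linear_combination e3
      exact (mul_eq_zero.1 this).resolve_right hne
    apply hind i j hij
    linear_combination -e0 + (ξ i * σ (ξ j)) * h2'
  have hker : ∀ i j, i ≠ j →
      (σ (ξ i) ^ 2 * ξ j ^ 2 - ξ i ^ 2 * σ (ξ j) ^ 2) /
        (ξ i * σ (ξ i) * σ (σ (ξ i)) * (ξ j * σ (ξ j) * σ (σ (ξ j)))) ≠ 0 := by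
    intro i j hij
    refine div_ne_zero ?_ (mul_ne_zero (mul_ne_zero (mul_ne_zero (h0 i) (h1 i)) (h2 i))
      (mul_ne_zero (mul_ne_zero (h0 j) (h1 j)) (h2 j)))
    have : σ (ξ i) ^ 2 * ξ j ^ 2 - ξ i ^ 2 * σ (ξ j) ^ 2 =
      (σ (ξ i) * ξ j - ξ i * σ (ξ j)) * (σ (ξ i) * ξ j + ξ i * σ (ξ j)) := by ring
    rw [this]
    refine mul_ne_zero ?_ (hplus i j hij)
    intro h
    apply hind i j hij
    linear_combination -h
  have hdot : ∀ i j, i ≠ j → av σ (ξ i) ⬝ᵥ av σ (ξ j) ≠ 0 := by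
    intro i j hij h
    have h' : σ (σ (ξ i)) * σ (σ (ξ j)) + ξ i * ξ j + σ (ξ i) * σ (ξ j) = 0 := by
      simpa [av, dotProduct, Fin.sum_univ_three] using h
    have hi := hiso i
    have hj := hiso j
    have key : (σ (ξ i) * σ (σ (ξ j)) - σ (σ (ξ i)) * σ (ξ j)) ^ 2 = 0 := by
      have e : (ξ i * ξ j) ^ 2 =
          (σ (σ (ξ i)) * σ (σ (ξ j)) + σ (ξ i) * σ (ξ j)) ^ 2 := by
        have : ξ i * ξ j = -(σ (σ (ξ i)) * σ (σ (ξ j)) + σ (ξ i) * σ (ξ j)) := by
          linear_combination h'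
        rw [this]; ring
      have e' : (ξ i * ξ j) ^ 2 =
          (σ (ξ i) ^ 2 + σ (σ (ξ i)) ^ 2) * (σ (ξ j) ^ 2 + σ (σ (ξ j)) ^ 2) := by
        have a : ξ i ^ 2 = -(σ (ξ i) ^ 2 + σ (σ (ξ i)) ^ 2) := by linear_combination hi
        have b : ξ j ^ 2 = -(σ (ξ j) ^ 2 + σ (σ (ξ j)) ^ 2) := by linear_combination hj
        rw [mul_pow, a, b]; ring
      linear_combination e - e'
    have key2 : σ (ξ i) * σ (σ (ξ j)) - σ (σ (ξ i)) * σ (ξ j) = 0 := by
      exact pow_eq_zero_iff (two_ne_zero) |>.1 key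
    have key3 : σ (ξ i * σ (ξ j) - σ (ξ i) * ξ j) = 0 := by
      rw [map_sub, map_mul, map_mul]; exact key2
    have key4 := (map_eq_zero σ).1 key3
    apply hind i j hij
    linear_combination key4
  refine ⟨{
    σ := σ
    hσ := fun a => by simpa using hσ a
    ψ := RingHom.id K
    T := fun i => T3 σ (ξ i)
    hT := ?_
    c := fun _ => 1
    hc := fun _ => one_ne_zero
    ε := -1
    hε := by ring
    hψε := rfl
    hdet := ?_
    J := 1
    hJ := by simp
    Θ := !![-1, 1, (algebraMap K[X] (FractionRing K[X]) X)⁻¹; 1, -1, 1;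
      algebraMap K[X] (FractionRing K[X]) X, 1, -1]
    hΘ := ?_
    hne := ?_ }, rfl, fun _ => rfl⟩
  · intro i
    unfold InO
    ext a b : 2
    fin_cases a <;> fin_cases b <;>
      simp [Pm, T3, Matrix.mul_apply, Fin.sum_univ_three, hσ]
  · intro i
    rw [T3, Matrix.det_fin_three]
    have a0 := h0 i
    have a1 := h1 i
    have a2 := h2 i
    have b1 : σ (ξ i) / ξ i * (σ (σ (ξ i)) / σ (ξ i)) * (ξ i / σ (σ (ξ i))) = 1 := by
      field_simp
    have b2 : ξ i / σ (ξ i) * (σ (ξ i) / σ (σ (ξ i))) * (σ (σ (ξ i)) / ξ i) = 1 := by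
      field_simp
    have c1 := congrArg (C : K → K[X]) b1
    have c2 := congrArg (C : K → K[X]) b2
    simp only [C_mul, C_1] at c1 c2
    simp
    linear_combination c1 + X * c2
  · intro i
    have a0 := h0 i
    have a1 := h1 i
    have a2 := h2 i
    have hX : (algebraMap K[X] (FractionRing K[X]) X) ≠ 0 := by
      simp
    have hC : ∀ z : K, z ≠ 0 → algebraMap K[X] (FractionRing K[X]) (C z) ≠ 0 := by
      intro z hz
      simpa using hz
    have hdiv : ∀ a b : K, algebraMap K[X] (FractionRing K[X]) (C (a / b)) =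
        algebraMap K[X] (FractionRing K[X]) (C a) / algebraMap K[X] (FractionRing K[X]) (C b) := by
      intro a b
      exact map_div₀ ((algebraMap K[X] (FractionRing K[X])).comp C) a b
    have d0 := hC _ a0
    have d1 := hC _ a1
    have d2 := hC _ a2
    have hi := congrArg (fun z => algebraMap K[X] (FractionRing K[X]) (C z)) (hiso i)
    simp only [map_add, map_pow, map_zero] at hi
    ext a b
    fin_cases a <;> fin_cases b <;>
      simp [T3, Psi, Matrix.mul_apply, Fin.sum_univ_three, hdiv]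
    all_goals
      generalize algebraMap K[X] (FractionRing K[X]) (C (ξ i)) = u0 at *
      generalize algebraMap K[X] (FractionRing K[X]) (C (σ (ξ i))) = u1 at *
      generalize algebraMap K[X] (FractionRing K[X]) (C (σ (σ (ξ i)))) = u2 at *
      generalize algebraMap K[X] (FractionRing K[X]) X = Z at *
      field_simp
      try first
        | linear_combination hi
        | ring1
  · intro L hL hne
    obtain ⟨s, hs, hs'⟩ := prod_rankone (fun i => av σ (ξ i))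
      (fun p => (T3 σ (ξ p.1) * (T3 σ (ξ p.2)).adjugate).map (eval (-1)))
      (fun p => (σ (ξ p.1) ^ 2 * ξ p.2 ^ 2 - ξ p.1 ^ 2 * σ (ξ p.2) ^ 2) /
        (ξ p.1 * σ (ξ p.1) * σ (σ (ξ p.1)) * (ξ p.2 * σ (ξ p.2) * σ (σ (ξ p.2)))))
      (fun p => letter σ _ _ (h0 _) (h0 _) (hiso _) (hiso _))
      (fun p hp => hker _ _ hp) hdot L hne hL
    rw [hs']
    intro h
    have h00 := congrFun (congrFun h 0) 0
    simp [vecMulVec_apply, av, hs, h2] at h00

end Pool.Agent.H7R2.LG
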