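import Pool.Agent.H2.L.R_seed8.H7R2.LG.Defs

set_option autoImplicit false

/-! Task A3: polynomial lemma (helper311). -/

namespace Pool.Agent.H7R2.LG

open Matrix Polynomial

theorem A3_psi {K : Type*} [Field K] (ψ : K →+* K) (p : K[X]) :
    Psi ψ p * (algebraMap K[X] (FractionRing K[X]) X) ^ p.natDegree =
      algebraMap K[X] (FractionRing K[X]) ((p.map ψ).reverse) := by
  have hX : algebraMap K[X] (FractionRing K[X]) X ≠ 0 := by
    rw [Ne, IsFractionRing.to_map_eq_zero_iff]; exact X_ne_zero
  have h1 : ((p.map ψ).reverse) = ∑ i ∈ Finset.range (p.natDegree + 1),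
      C (ψ (p.coeff i)) * X ^ (p.natDegree - i) := by
    ext n
    rw [Polynomial.finsetSum_coeff, Polynomial.coeff_reverse,
      Polynomial.natDegree_map_eq_of_injective ψ.injective, Polynomial.coeff_map]
    simp only [Polynomial.coeff_C_mul, Polynomial.coeff_X_pow]
    by_cases hn : n ≤ p.natDegree
    · rw [Polynomial.revAt_le hn, Finset.sum_eq_single (p.natDegree - n)]
      · rw [if_pos (by omega), mul_one]
      · intro b hb hb'
        rw [Finset.mem_range] at hb
        rw [if_neg (by omega), mul_zero]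
      · intro h; exact absurd (Finset.mem_range.2 (by omega)) h
    · rw [Polynomial.revAt_eq_self_of_lt (by omega), Polynomial.coeff_eq_zero_of_natDegree_lt
        (by omega), map_zero]
      symm
      apply Finset.sum_eq_zero
      intro b hb
      rw [if_neg (by omega), mul_zero]
  rw [h1, map_sum]
  have h2 : Psi ψ p = ∑ i ∈ Finset.range (p.natDegree + 1),
      algebraMap K[X] (FractionRing K[X]) (C (ψ (p.coeff i))) *
        ((algebraMap K[X] (FractionRing K[X]) X)⁻¹) ^ i := by
    unfold Psi
    rw [Polynomial.coe_eval₂RingHom, Polynomial.eval₂_eq_sum_range]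
    rfl
  rw [h2, Finset.sum_mul]
  refine Finset.sum_congr rfl fun i hi => ?_
  rw [Finset.mem_range] at hi
  rw [map_mul, map_pow, mul_assoc]
  congr 1
  rw [inv_pow, inv_mul_eq_iff_eq_mul₀ (pow_ne_zero _ hX), ← pow_add]
  congr 1
  omega

theorem recip {K : Type*} [Field K] (ψ : K →+* K) (p : K[X]) (hp : p ≠ 0) (κ : K) (hκ : κ ≠ 0)
    (r m : ℕ) (h : Psi ψ p * (algebraMap K[X] (FractionRing K[X]) X) ^ r =
      algebraMap K[X] (FractionRing K[X]) (C κ * p)) (hm : (X : K[X]) ^ m ∣ p) : 2 * m ≤ r := by
  have h1 : algebraMap K[X] (FractionRing K[X]) ((p.map ψ).reverse * X ^ r) =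
      algebraMap K[X] (FractionRing K[X]) (C κ * p * X ^ p.natDegree) := by
    rw [map_mul, ← A3_psi, map_pow, mul_right_comm, h, map_mul, map_mul, map_mul, map_pow]
  have h2 := IsFractionRing.injective K[X] (FractionRing K[X]) h1
  have h3 : p.map ψ ≠ 0 := by
    rwa [Ne, Polynomial.map_eq_zero]
  have h4 : (p.map ψ).reverse ≠ 0 := by
    rwa [Ne, Polynomial.reverse_eq_zero]
  have h5 : C κ * p ≠ 0 := mul_ne_zero (by simpa using hκ) hp
  have h6 := congrArg Polynomial.natTrailingDegree h2
  rw [Polynomial.natTrailingDegree_mul_X_pow h4, Polynomial.natTrailingDegree_mul_X_pow h5,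
    Polynomial.natTrailingDegree_mul (by simpa using hκ) hp, Polynomial.natTrailingDegree_C,
    zero_add, Polynomial.natTrailingDegree_reverse, zero_add] at h6
  have h7 : m ≤ p.natTrailingDegree := by
    obtain ⟨q, hq⟩ := hm
    have hq0 : q ≠ 0 := by rintro rfl; apply hp; rw [hq, mul_zero]
    rw [hq, mul_comm, Polynomial.natTrailingDegree_mul_X_pow hq0]
    omega
  have h8 := Polynomial.natTrailingDegree_le_natDegree p
  omega

end Pool.Agent.H7R2.LG
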