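import Pool.Agent.H2.L.R_seed8.H7R2.LG.Block
import Pool.Agent.H2.L.R_seed8.H7R2.LG.Order
import Pool.Agent.H2.L.R_seed8.H7R2.LG.Recip

set_option autoImplicit false

namespace Pool.Agent.H7R2.LG

open Matrix Polynomial

theorem A4_inO_smul {R : Type*} [CommRing R] {d : ℕ} {s : R →+* R} {x : R} (r : R) (hr : s r = r) :
    InO s x (r • (1 : Matrix (Fin (d + 1)) (Fin (d + 1)) R)) := by
  unfold InO
  have : (r • (1 : Matrix (Fin (d + 1)) (Fin (d + 1)) R)).map s =
      r • (1 : Matrix (Fin (d + 1)) (Fin (d + 1)) R) := by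
    ext i j
    simp only [Matrix.map_apply, Matrix.smul_apply, Matrix.one_apply, smul_eq_mul]
    split_ifs <;> simp [hr]
  rw [this]; simp

theorem A4_det_fix {R : Type*} [CommRing R] [IsDomain R] {d : ℕ} {s : R →+* R} {x : R}
    (hx : x ≠ 0) {M : Matrix (Fin (d + 1)) (Fin (d + 1)) R} (hM : InO s x M) :
    s M.det = M.det := by
  have h := congrArg Matrix.det hM
  rw [Matrix.det_mul, Matrix.det_mul] at h
  have hP : (Pm d x).det ≠ 0 := by
    rw [pm_det]
    exact mul_ne_zero (pow_ne_zero _ (by simp)) hx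
  have h2 : (M.map s).det = s M.det := by
    rw [← RingHom.mapMatrix_apply, ← RingHom.map_det]
  rw [h2, mul_comm] at h
  exact (mul_right_cancel₀ hP h).symm

theorem A4_inO_adj {R : Type*} [CommRing R] [IsDomain R] {d : ℕ} {s : R →+* R} {x : R}
    (hx : x ≠ 0) {M : Matrix (Fin (d + 1)) (Fin (d + 1)) R} (hM : InO s x M) (h0 : M.det ≠ 0) :
    InO s x M.adjugate := by
  have hfix := A4_det_fix hx hM
  unfold InO at *
  have e1 : M.adjugate.map s * M.map s = M.det • (1 : Matrix (Fin (d + 1)) (Fin (d + 1)) R) := by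
    rw [← Matrix.map_mul, Matrix.adjugate_mul]
    ext i j
    simp only [Matrix.map_apply, Matrix.smul_apply, Matrix.one_apply, smul_eq_mul]
    split_ifs <;> simp [hfix]
  have e2 : M.det • (Pm d x * M.adjugate) = M.det • (M.adjugate.map s * Pm d x) := by
    calc M.det • (Pm d x * M.adjugate) =
        (M.det • (1 : Matrix (Fin (d + 1)) (Fin (d + 1)) R)) * (Pm d x * M.adjugate) := by
          rw [Matrix.smul_mul, Matrix.one_mul]
      _ = (M.adjugate.map s * M.map s) * (Pm d x * M.adjugate) := by rw [e1]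
      _ = M.adjugate.map s * ((M.map s * Pm d x) * M.adjugate) := by
          simp only [Matrix.mul_assoc]
      _ = M.adjugate.map s * (Pm d x * (M * M.adjugate)) := by rw [← hM, Matrix.mul_assoc]
      _ = M.det • (M.adjugate.map s * Pm d x) := by
          rw [Matrix.mul_adjugate, Matrix.mul_smul, Matrix.mul_smul, Matrix.mul_one]
  ext i j
  have := congrFun (congrFun e2 i) j
  simp only [Matrix.smul_apply, smul_eq_mul] at this
  exact mul_left_cancel₀ h0 this

theorem A4_inO_prod {R : Type*} [CommRing R] {d : ℕ} {s : R →+* R} {x : R}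
    (L : List (Matrix (Fin (d + 1)) (Fin (d + 1)) R)) (h : ∀ M ∈ L, InO s x M) :
    InO s x L.prod := by
  induction L with
  | nil => simpa using InO.one
  | cons M L ih =>
    rw [List.prod_cons]
    exact (h M (by simp)).mul (ih fun N hN => h N (by simp [hN]))

/-- the word `∏ P Q⁻¹` over the field -/
noncomputable def A4_W {K : Type} [Field K] {d : ℕ} {ι : Type}
    (T : ι → Matrix (Fin (d + 1)) (Fin (d + 1)) K[X]) (f : K[X] →+* FractionRing K[X])
    (L : List (ι × ι)) : Matrix (Fin (d + 1)) (Fin (d + 1)) (FractionRing K[X]) :=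
  (L.map fun p => (T p.1).map f * ((T p.2).map f)⁻¹).prod

noncomputable def A4_Wt {K : Type} [Field K] {d : ℕ} {ι : Type}
    (T : ι → Matrix (Fin (d + 1)) (Fin (d + 1)) K[X])
    (L : List (ι × ι)) : Matrix (Fin (d + 1)) (Fin (d + 1)) K[X] :=
  (L.map fun p => T p.1 * (T p.2).adjugate).prod

noncomputable def A4_Lam {K : Type} [Field K] {d : ℕ} {ι : Type}
    (T : ι → Matrix (Fin (d + 1)) (Fin (d + 1)) K[X])
    (L : List (ι × ι)) : K[X] :=
  (L.map fun p => (T p.2).det).prod

theorem A4_map_mul {R S : Type*} [CommRing R] [CommRing S] {n : ℕ} (f : R →+* S)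
    (A B : Matrix (Fin n) (Fin n) R) : (A * B).map f = A.map f * B.map f := by
  simp [Matrix.map_mul]

theorem A4_adj {K : Type} [Field K] {d : ℕ} {ι : Type}
    (T : ι → Matrix (Fin (d + 1)) (Fin (d + 1)) K[X]) (f : K[X] →+* FractionRing K[X])
    (hf : ∀ i, f (T i).det ≠ 0) (L : List (ι × ι)) :
    (A4_Wt T L).map f = f (A4_Lam T L) • A4_W T f L := by
  induction L with
  | nil =>
    simp only [A4_Wt, A4_Lam, A4_W, List.map_nil, List.prod_nil, map_one, one_smul]
    exact Matrix.map_one f (map_zero f) (map_one f)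
  | cons p L ih =>
    have h1 : A4_Wt T (p :: L) = (T p.1 * (T p.2).adjugate) * A4_Wt T L := by
      simp [A4_Wt]
    have h2 : A4_Lam T (p :: L) = (T p.2).det * A4_Lam T L := by simp [A4_Lam]
    have h3 : A4_W T f (p :: L) = ((T p.1).map f * ((T p.2).map f)⁻¹) * A4_W T f L := by
      simp [A4_W]
    rw [h1, h2, h3, A4_map_mul, A4_map_mul, ih]
    have h4 : (T p.2).adjugate.map f = f (T p.2).det • ((T p.2).map f)⁻¹ := by
      have h5 : (T p.2).adjugate.map f = ((T p.2).map f).adjugate := by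
        have := RingHom.map_adjugate f (T p.2)
        simpa [RingHom.mapMatrix_apply] using this
      have h6 : ((T p.2).map f).det = f (T p.2).det := by
        rw [← RingHom.mapMatrix_apply, ← RingHom.map_det]
      rw [h5, Matrix.inv_def, h6, smul_smul, Ring.inverse_eq_inv', mul_inv_cancel₀ (hf _), one_smul]
    rw [h4, map_mul]
    simp only [Matrix.mul_smul, Matrix.smul_mul, smul_smul]
    congr 1
    ring

theorem A4_det_sub {K : Type} [Field K] {d : ℕ} {ι : Type}
    (T : ι → Matrix (Fin (d + 1)) (Fin (d + 1)) K[X]) (f : K[X] →+* FractionRing K[X])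
    (hf : ∀ i, f (T i).det ≠ 0) (L : List (ι × ι)) :
    f (A4_Lam T L • (1 : Matrix (Fin (d + 1)) (Fin (d + 1)) K[X]) - A4_Wt T L).det =
      f (A4_Lam T L) ^ (d + 1) * (1 - A4_W T f L).det := by
  rw [RingHom.map_det, RingHom.mapMatrix_apply]
  have : (A4_Lam T L • (1 : Matrix (Fin (d + 1)) (Fin (d + 1)) K[X]) - A4_Wt T L).map f =
      f (A4_Lam T L) • (1 - A4_W T f L) := by
    have h := A4_adj T f hf L
    rw [smul_sub, ← h]
    ext i j
    simp only [Matrix.map_apply, Matrix.sub_apply, Matrix.smul_apply, Matrix.one_apply,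
      smul_eq_mul, map_sub, map_mul]
    split_ifs <;> simp
  rw [this, Matrix.det_smul]
  simp

theorem A4_unit {K : Type} [Field K] {d : ℕ} {ι : Type}
    (T : ι → Matrix (Fin (d + 1)) (Fin (d + 1)) K[X]) (f g : K[X] →+* FractionRing K[X])
    (hf : ∀ i, f (T i).det ≠ 0) (hg : ∀ i, g (T i).det ≠ 0)
    (J Θ : Matrix (Fin (d + 1)) (Fin (d + 1)) (FractionRing K[X]))
    (hΘ : ∀ i, ((T i).map g)ᵀ * J * (T i).map f = Θ) (L : List (ι × ι)) :
    (A4_W T g L)ᵀ * J * A4_W T f L = J := by
  induction L with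
  | nil => simp [A4_W]
  | cons p L ih =>
    have h3 : ∀ f : K[X] →+* FractionRing K[X], A4_W T f (p :: L) =
      ((T p.1).map f * ((T p.2).map f)⁻¹) * A4_W T f L := by
      intro f; simp [A4_W]
    have hdf : ∀ i, IsUnit ((T i).map f).det := by
      intro i
      have h6 : ((T i).map f).det = f (T i).det := by
        rw [← RingHom.mapMatrix_apply, ← RingHom.map_det]
      rw [h6]; exact (hf i).isUnit
    have hdg : ∀ i, IsUnit ((T i).map g).det := by
      intro i
      have h6 : ((T i).map g).det = g (T i).det := by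
        rw [← RingHom.mapMatrix_apply, ← RingHom.map_det]
      rw [h6]; exact (hg i).isUnit
    rw [h3 f, h3 g]
    have hB1 : (T p.2).map f * ((T p.2).map f)⁻¹ = 1 := Matrix.mul_nonsing_inv _ (hdf _)
    have hB2 : (((T p.2).map g)⁻¹)ᵀ * ((T p.2).map g)ᵀ = 1 := by
      rw [← Matrix.transpose_mul, Matrix.mul_nonsing_inv _ (hdg _), Matrix.transpose_one]
    have key : ((T p.1).map g * ((T p.2).map g)⁻¹)ᵀ * J * ((T p.1).map f * ((T p.2).map f)⁻¹) =
        J := by
      rw [Matrix.transpose_mul]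
      calc (((T p.2).map g)⁻¹)ᵀ * ((T p.1).map g)ᵀ * J * ((T p.1).map f * ((T p.2).map f)⁻¹)
          = (((T p.2).map g)⁻¹)ᵀ * (((T p.1).map g)ᵀ * J * (T p.1).map f) * ((T p.2).map f)⁻¹ := by
            simp only [Matrix.mul_assoc]
        _ = (((T p.2).map g)⁻¹)ᵀ * (((T p.2).map g)ᵀ * J * (T p.2).map f) * ((T p.2).map f)⁻¹ := by
            rw [hΘ, hΘ]
        _ = ((((T p.2).map g)⁻¹)ᵀ * ((T p.2).map g)ᵀ) * J * ((T p.2).map f * ((T p.2).map f)⁻¹) := by
            simp only [Matrix.mul_assoc]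
        _ = J := by rw [hB1, hB2]; simp
    rw [Matrix.transpose_mul]
    calc _ = (A4_W T g L)ᵀ * (((T p.1).map g * ((T p.2).map g)⁻¹)ᵀ * J *
          ((T p.1).map f * ((T p.2).map f)⁻¹)) * A4_W T f L := by simp only [Matrix.mul_assoc]
      _ = J := by rw [key, ih]

theorem A4_unit_det {F : Type*} [Field F] {n : ℕ}
    (A J B : Matrix (Fin n) (Fin n) F) (hJ : J.det ≠ 0) (h : Aᵀ * J * B = J) :
    (1 - A).det * B.det = (-1) ^ n * (1 - B).det := by
  have h1 : (1 - A)ᵀ * J * B = -(J * (1 - B)) := by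
    rw [Matrix.transpose_sub, Matrix.transpose_one, Matrix.sub_mul, Matrix.sub_mul, Matrix.one_mul,
      h, Matrix.mul_sub, Matrix.mul_one, neg_sub]
  have h2 := congrArg Matrix.det h1
  rw [Matrix.det_neg, Matrix.det_mul, Matrix.det_mul, Matrix.det_mul, Matrix.det_transpose] at h2
  simp only [Fintype.card_fin] at h2
  have h3 : J.det * ((1 - A).det * B.det) = J.det * ((-1) ^ n * (1 - B).det) := by
    rw [← sub_eq_zero] at h2 ⊢
    rw [← h2]; ring
  exact mul_left_cancel₀ hJ h3

theorem A4_detW {K : Type} [Field K] {d : ℕ} {ι : Type}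
    (T : ι → Matrix (Fin (d + 1)) (Fin (d + 1)) K[X]) (f : K[X] →+* FractionRing K[X])
    (c : ι → K) (l : K[X]) (hdet : ∀ i, (T i).det = C (c i) * l)
    (hf : ∀ i, f (T i).det ≠ 0) (L : List (ι × ι)) :
    f (C (L.map fun p => c p.2).prod) * (A4_W T f L).det = f (C (L.map fun p => c p.1).prod) := by
  induction L with
  | nil => simp [A4_W]
  | cons p L ih =>
    have h3 : A4_W T f (p :: L) =
      ((T p.1).map f * ((T p.2).map f)⁻¹) * A4_W T f L := by simp [A4_W]
    have h6 : ∀ i, ((T i).map f).det = f (T i).det := by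
      intro i
      rw [← RingHom.mapMatrix_apply, ← RingHom.map_det]
    rw [h3, Matrix.det_mul, Matrix.det_mul, Matrix.det_nonsing_inv, h6, h6,
      Ring.inverse_eq_inv', List.map_cons, List.map_cons, List.prod_cons, List.prod_cons,
      map_mul, map_mul, map_mul, map_mul, ← ih]
    have e1 : f (C (c p.2)) * ((f (T p.2).det)⁻¹ * f (T p.1).det) = f (C (c p.1)) := by
      have hne := hf p.2
      have hl : f l ≠ 0 := by
        intro h; apply hne; rw [hdet, map_mul, h, mul_zero]
      have hc : f (C (c p.2)) ≠ 0 := by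
        intro h; apply hne; rw [hdet, map_mul, h, zero_mul]
      rw [hdet, hdet, map_mul, map_mul]
      field_simp
    calc _ = (f (C (c p.2)) * ((f (T p.2).det)⁻¹ * f (T p.1).det)) *
          (f (C (L.map fun p => c p.2).prod) * (A4_W T f L).det) := by ring
      _ = _ := by rw [e1]

theorem A4_Lam_eq {K : Type} [Field K] {d : ℕ} {ι : Type}
    (T : ι → Matrix (Fin (d + 1)) (Fin (d + 1)) K[X])
    (c : ι → K) (l : K[X]) (hdet : ∀ i, (T i).det = C (c i) * l) (L : List (ι × ι)) :
    A4_Lam T L = C (L.map fun p => c p.2).prod * l ^ L.length := by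
  induction L with
  | nil => simp [A4_Lam]
  | cons p L ih =>
    have h2 : A4_Lam T (p :: L) = (T p.2).det * A4_Lam T L := by simp [A4_Lam]
    rw [h2, ih, hdet]
    simp only [List.map_cons, List.prod_cons, map_mul, List.length_cons, pow_succ]
    ring

theorem girthA {K : Type} [Field K] {d : ℕ} {ι : Type} (D : Datum K d ι) (L : List (ι × ι))
    (hL : Red L) (hne : L ≠ []) (m : ℕ)
    (h : (X : K[X]) ^ m ∣ ((L.map fun p => (D.T p.2).det).prod •
        (1 : Matrix (Fin (d + 1)) (Fin (d + 1)) K[X]) -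
      (L.map fun p => D.T p.1 * (D.T p.2).adjugate).prod).det) : 2 * m ≤ L.length := by
  set a : K[X] →+* FractionRing K[X] := algebraMap K[X] (FractionRing K[X]) with ha
  have hinj : Function.Injective a := IsFractionRing.injective K[X] (FractionRing K[X])
  set l : K[X] := 1 - C D.ε * X with hl
  have hl0 : l ≠ 0 := by
    intro h0
    have := congrArg (eval 0) h0
    simp [hl] at this
  have hxa : a X ≠ 0 := by
    intro h0
    exact X_ne_zero (hinj (by rw [h0, map_zero]))
  have hdet0 : ∀ i, (D.T i).det ≠ 0 := by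
    intro i
    rw [D.hdet]
    exact mul_ne_zero (by simpa using D.hc i) hl0
  have hfa : ∀ i, a (D.T i).det ≠ 0 := by
    intro i h0
    exact hdet0 i (hinj (by rw [h0, map_zero]))
  have hε0 : D.ε ≠ 0 := by
    intro h0
    have := D.hε
    rw [h0] at this
    simp at this
  have hPC : ∀ u : K, Psi D.ψ (C u) = a (C (D.ψ u)) := by
    intro u; simp [Psi, ha]
  have hPX : Psi D.ψ X = (a X)⁻¹ := by simp [Psi, ha]
  have hPl : Psi D.ψ l * a X = - a (C D.ε) * a l := by
    rw [hl, map_sub, map_one, map_mul, hPC, hPX, D.hψε, map_sub, map_mul, map_one]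
    have : a (C D.ε) * a (C D.ε) = 1 := by rw [← map_mul, ← C_mul, D.hε]; simp
    field_simp
    linear_combination (- a X) * this
  have haε : a (C D.ε) ≠ 0 := by
    intro h0
    have : C D.ε = 0 := hinj (by rw [h0, map_zero])
    exact hε0 (by simpa using this)
  have hal : a l ≠ 0 := fun h0 => hl0 (hinj (by rw [h0, map_zero]))
  have hPl0 : Psi D.ψ l ≠ 0 := by
    intro h0
    rw [h0, zero_mul] at hPl
    exact mul_ne_zero (neg_ne_zero.mpr haε) hal hPl.symm
  have hfP : ∀ i, Psi D.ψ (D.T i).det ≠ 0 := by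
    intro i
    rw [D.hdet, map_mul, hPC]
    refine mul_ne_zero ?_ hPl0
    intro h0
    have : C (D.ψ (D.c i)) = 0 := hinj (by rw [h0, map_zero])
    have h2 : D.ψ (D.c i) = 0 := by simpa using this
    exact D.hc i ((map_eq_zero D.ψ).mp h2)
  set Λ := A4_Lam D.T L with hΛ
  set Wt := A4_Wt D.T L with hWt
  set W := A4_W D.T a L with hW
  set W' := A4_W D.T (Psi D.ψ) L with hW'
  set cP := (L.map fun p => D.c p.1).prod with hcP
  set cQ := (L.map fun p => D.c p.2).prod with hcQ
  have hcP0 : cP ≠ 0 := by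
    rw [hcP]; apply List.prod_ne_zero
    simp only [List.mem_map, not_exists, not_and]
    intro p _ h0; exact D.hc _ h0
  have hcQ0 : cQ ≠ 0 := by
    rw [hcQ]; apply List.prod_ne_zero
    simp only [List.mem_map, not_exists, not_and]
    intro p _ h0; exact D.hc _ h0
  have hΛe : Λ = C cQ * l ^ L.length := A4_Lam_eq D.T D.c l D.hdet L
  -- the polynomial p
  obtain ⟨p, hp⟩ := block (R := K[X]) (F := FractionRing K[X])
    (L.map fun p => (D.T p.1, D.T p.2))
    (by
      intro q hq
      simp only [List.mem_map] at hq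
      obtain ⟨p, _, rfl⟩ := hq
      exact hfa p.2) (Fin (d + 1)) 1 (-1) 1
  have hp' : a p = a Λ * (1 - W).det := by
    rw [ha, hp]
    congr 1
    · simp [hΛ, A4_Lam, List.map_map, Function.comp_def]
    · congr 1
      have e1 : (1 : Matrix (Fin (d + 1)) (Fin (d + 1)) K[X]).map
          (algebraMap K[X] (FractionRing K[X])) = 1 :=
        Matrix.map_one _ (map_zero _) (map_one _)
      have e2 : (-1 : Matrix (Fin (d + 1)) (Fin (d + 1)) K[X]).map
          (algebraMap K[X] (FractionRing K[X])) = -1 := by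
        ext i j
        simp only [Matrix.map_apply, Matrix.neg_apply, Matrix.one_apply, map_neg]
        split_ifs <;> simp
      rw [e1, e2]
      simp [hW, A4_W, List.map_map, Function.comp_def, sub_eq_add_neg, ha]
  have hpΛ : Λ ^ d * p = (Λ • (1 : Matrix (Fin (d + 1)) (Fin (d + 1)) K[X]) - Wt).det := by
    apply hinj
    rw [A4_det_sub D.T a hfa L, map_mul, map_pow, hp', pow_succ]
    ring
  have hΛ0 : Λ ≠ 0 := by
    rw [hΛe]; exact mul_ne_zero (by simpa using hcQ0) (pow_ne_zero _ hl0)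
  have hPΛ : Psi D.ψ Λ ≠ 0 := by
    rw [hΛe, map_mul, map_pow, hPC]
    refine mul_ne_zero ?_ (pow_ne_zero _ hPl0)
    intro h0
    have : C (D.ψ cQ) = 0 := hinj (by rw [h0, map_zero])
    exact hcQ0 ((map_eq_zero D.ψ).mp (by simpa using this))
  have hPp : Psi D.ψ p = Psi D.ψ Λ * (1 - W').det := by
    have h1 := congrArg (Psi D.ψ) hpΛ
    rw [A4_det_sub D.T (Psi D.ψ) hfP L, map_mul, map_pow, pow_succ, mul_assoc] at h1
    exact mul_left_cancel₀ (pow_ne_zero _ hPΛ) h1
  have hJ : (D.J.map a).det ≠ 0 := by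
    rw [← RingHom.mapMatrix_apply, ← RingHom.map_det]
    intro h0; exact D.hJ (hinj (by rw [h0, map_zero]))
  have hun := A4_unit D.T a (Psi D.ψ) hfa hfP (D.J.map a) D.Θ D.hΘ L
  have hud := A4_unit_det _ _ _ hJ hun
  rw [← hW, ← hW'] at hud
  have hdW : a (C cQ) * W.det = a (C cP) := A4_detW D.T a D.c l D.hdet hfa L
  -- reciprocity
  have hrec : Psi D.ψ p * (a X) ^ L.length =
      a (C (D.ψ cQ * (-D.ε) ^ L.length * (-1) ^ (d + 1) / cP) * p) := by
    have haP : a (C cP) ≠ 0 := by
      intro h0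
      exact hcP0 (by simpa using (hinj (by rw [h0, map_zero]) : C cP = 0))
    have haQ : a (C cQ) ≠ 0 := by
      intro h0
      exact hcQ0 (by simpa using (hinj (by rw [h0, map_zero]) : C cQ = 0))
    have hdW0 : W.det ≠ 0 := by
      intro h0; rw [h0, mul_zero] at hdW; exact haP hdW.symm
    have e1 : Psi D.ψ Λ * (a X) ^ L.length =
        a (C (D.ψ cQ)) * (- a (C D.ε)) ^ L.length * a l ^ L.length := by
      rw [hΛe, map_mul, map_pow, hPC, mul_assoc, ← mul_pow, hPl, mul_pow]; ring
    have e2 : a (C (D.ψ cQ * (-D.ε) ^ L.length * (-1) ^ (d + 1) / cP)) * a (C cP) =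
        a (C (D.ψ cQ)) * (- a (C D.ε)) ^ L.length * (-1) ^ (d + 1) := by
      rw [← map_mul, ← C_mul, div_mul_cancel₀ _ hcP0]
      simp [map_mul, map_pow, map_neg]
    have e3 : a Λ = a (C cQ) * a l ^ L.length := by rw [hΛe, map_mul, map_pow]
    apply mul_right_cancel₀ haP
    calc Psi D.ψ p * (a X) ^ L.length * a (C cP)
        = (Psi D.ψ Λ * (a X) ^ L.length) * ((1 - W').det * W.det) * a (C cQ) := by
          rw [hPp, ← hdW]; ring
      _ = (a (C (D.ψ cQ)) * (- a (C D.ε)) ^ L.length * a l ^ L.length) *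
          ((-1) ^ (d + 1) * (1 - W).det) * a (C cQ) := by rw [e1, hud]
      _ = (a (C (D.ψ cQ)) * (- a (C D.ε)) ^ L.length * (-1) ^ (d + 1)) *
          (a (C cQ) * a l ^ L.length * (1 - W).det) := by ring
      _ = (a (C (D.ψ cQ * (-D.ε) ^ L.length * (-1) ^ (d + 1) / cP)) * a (C cP)) * a p := by
          rw [e2, hp', e3]
      _ = _ := by rw [map_mul]; ring
  -- X ^ m ∣ p
  have hXp : (X : K[X]) ^ m ∣ p := by
    have h1 : (X : K[X]) ^ m ∣ Λ ^ d * p := by
      rw [hpΛ]; exact h
    have hco : IsCoprime (X : K[X]) l := ⟨C D.ε, 1, by rw [hl]; ring⟩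
    have hco2 : IsCoprime (X : K[X]) Λ := by
      rw [hΛe]
      refine IsCoprime.mul_right ?_ hco.pow_right
      exact (isCoprime_one_right (x := (X : K[X]))).of_isCoprime_of_dvd_right
        (isUnit_iff_dvd_one.mp (isUnit_C.mpr hcQ0.isUnit))
    exact (IsCoprime.pow hco2).dvd_of_dvd_mul_left h1
  -- p ≠ 0
  have hp0 : p ≠ 0 := by
    rintro rfl
    rw [mul_zero] at hpΛ
    have hO : InO (mapRingHom D.σ) X
        (Λ • (1 : Matrix (Fin (d + 1)) (Fin (d + 1)) K[X]) - Wt) := by
      apply InO.sub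
      · apply A4_inO_smul
        rw [hΛ, A4_Lam, map_list_prod, List.map_map]
        congr 1
        apply List.map_congr_left
        intro p _
        exact A4_det_fix X_ne_zero (D.hT p.2)
      · rw [hWt, A4_Wt]
        apply A4_inO_prod
        intro M hM
        simp only [List.mem_map] at hM
        obtain ⟨p, _, rfl⟩ := hM
        exact (D.hT p.1).mul (A4_inO_adj X_ne_zero (D.hT p.2) (hdet0 p.2))
    have h0 := inO_division D.σ hO hpΛ.symm
    have h1 : Wt = Λ • (1 : Matrix (Fin (d + 1)) (Fin (d + 1)) K[X]) := (sub_eq_zero.mp h0).symm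
    apply D.hne L hL hne
    have h2 : (L.map fun p => (D.T p.1 * (D.T p.2).adjugate).map (eval D.ε)).prod =
        (evalRingHom D.ε).mapMatrix Wt := by
      rw [hWt, A4_Wt, map_list_prod, List.map_map]
      rfl
    rw [h2, h1]
    have h3 : eval D.ε Λ = 0 := by
      rw [hΛe, eval_mul, eval_pow, hl]
      have : eval D.ε (1 - C D.ε * X) = 0 := by simp [D.hε]
      rw [this, zero_pow, mul_zero]
      exact fun h => hne (List.length_eq_zero_iff.mp h)
    ext i j
    simp only [RingHom.mapMatrix_apply, Matrix.map_apply, Matrix.smul_apply, smul_eq_mul,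
      Polynomial.coe_evalRingHom, eval_mul, h3, zero_mul, Matrix.zero_apply]
  have hκ0 : D.ψ cQ * (-D.ε) ^ L.length * (-1) ^ (d + 1) / cP ≠ 0 := by
    refine div_ne_zero (mul_ne_zero (mul_ne_zero ?_ (pow_ne_zero _ (neg_ne_zero.mpr hε0)))
      (pow_ne_zero _ (by simp))) hcP0
    intro h0; exact hcQ0 ((map_eq_zero D.ψ).mp h0)
  exact recip D.ψ p hp0 _ hκ0 L.length m hrec hXp

end Pool.Agent.H7R2.LG
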