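import Pool.Agent.H2.L.R_seed8.H7R2.LG.Defs

set_option autoImplicit false

/-! The bipartite graph of a group with a family of elements: the girth from reduced words. -/

namespace Pool.Agent.H7R2.LG

namespace GraphC

variable {G : Type} [Group G] {ι : Type}

/-- `inl g` is joined to `inr (g * t P)`. -/
def bip (t : ι → G) : SimpleGraph (G ⊕ G) where
  Adj u v := match u, v with
    | Sum.inl g, Sum.inr h => ∃ P, h = g * t P
    | Sum.inr h, Sum.inl g => ∃ P, h = g * t P
    | _, _ => False
  symm := ⟨by rintro (g | g) (h | h) H <;> exact H⟩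
  loopless := ⟨by rintro (g | g) H <;> exact H⟩

theorem adj_lr {t : ι → G} {g h : G} :
    (bip t).Adj (Sum.inl g) (Sum.inr h) ↔ ∃ P, h = g * t P := Iff.rfl

theorem adj_rl {t : ι → G} {g h : G} :
    (bip t).Adj (Sum.inr h) (Sum.inl g) ↔ ∃ P, h = g * t P := Iff.rfl

theorem not_adj_ll {t : ι → G} {g h : G} : ¬ (bip t).Adj (Sum.inl g) (Sum.inl h) := fun H => H

theorem not_adj_rr {t : ι → G} {g h : G} : ¬ (bip t).Adj (Sum.inr g) (Sum.inr h) := fun H => H

/-- words from trails -/
theorem walk_lemma (t : ι → G) : ∀ (n : ℕ) (u v : G ⊕ G) (w : (bip t).Walk u v) (g g' : G),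
    u = Sum.inl g → v = Sum.inl g' → w.length ≤ n → w.IsTrail →
    ∃ L : List (ι × ι), Red L ∧ 2 * L.length = w.length ∧
      g' = g * (L.map fun p => t p.1 * (t p.2)⁻¹).prod ∧
      ∀ p ∈ L.head?, s(Sum.inl g, Sum.inr (g * t p.1)) ∈ w.edges := by
  intro n
  induction n with
  | zero =>
    intro u v w g g' hu hv hn _
    cases w with
    | nil =>
      subst hu
      have hgg : g = g' := Sum.inl.inj hv
      refine ⟨[], ⟨by simp, by simp⟩, by simp, by simp [hgg], by simp⟩
    | cons h w1 =>
      simp at hn
  | succ n ih =>
    intro u v w g g' hu hv hn ht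
    cases w with
    | nil =>
      subst hu
      have hgg : g = g' := Sum.inl.inj hv
      refine ⟨[], ⟨by simp, by simp⟩, by simp, by simp [hgg], by simp⟩
    | @cons _ x _ h1 w1 =>
      subst hu
      cases w1 with
      | nil =>
        subst hv
        exact absurd h1 not_adj_ll
      | @cons _ y _ h2 w2 =>
        rcases x with x | x
        · exact absurd h1 not_adj_ll
        rcases y with g1 | y
        swap
        · exact absurd h2 not_adj_rr
        obtain ⟨P, hP⟩ := adj_lr.1 h1
        obtain ⟨Q, hQ⟩ := adj_rl.1 h2
        rw [SimpleGraph.Walk.isTrail_cons] at ht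
        obtain ⟨ht1, hne1⟩ := ht
        rw [SimpleGraph.Walk.isTrail_cons] at ht1
        obtain ⟨ht2, hne2⟩ := ht1
        obtain ⟨L, hL, hlen, hprod, hhead⟩ := ih _ _ w2 g1 g' rfl hv
          (by simp only [SimpleGraph.Walk.length_cons] at hn; omega) ht2
        have hg1 : g1 = g * (t P * (t Q)⁻¹) := by
          rw [← mul_assoc, ← hP, hQ, mul_inv_cancel_right]
        have hPQ : P ≠ Q := by
          intro hPQ
          subst hPQ
          have hg : g1 = g := by rw [hg1, mul_inv_cancel, mul_one]
          apply hne1
          rw [SimpleGraph.Walk.edges_cons]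
          refine List.mem_cons.2 (Or.inl ?_)
          rw [hg]
          exact Sym2.eq_swap
        refine ⟨(P, Q) :: L, ⟨?_, ?_⟩, ?_, ?_, ?_⟩
        · intro p hp
          rcases List.mem_cons.1 hp with hp | hp
          · rw [hp]
            exact hPQ
          · exact hL.1 p hp
        · cases L with
          | nil => exact List.isChain_singleton _
          | cons p' L' =>
            rw [List.isChain_cons_cons]
            refine ⟨?_, hL.2⟩
            intro hQp
            have hh := hhead p' (by simp)
            apply hne2
            have e : g1 * t p'.1 = x := by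
              rw [← hQp, hQ]
            rw [e] at hh
            rw [Sym2.eq_swap]
            exact hh
        · simp only [List.length_cons, SimpleGraph.Walk.length_cons]
          omega
        · rw [List.map_cons, List.prod_cons, ← mul_assoc, ← hg1]
          exact hprod
        · intro p hp
          have hp' : p = (P, Q) := by simpa using hp.symm
          rw [hp', SimpleGraph.Walk.edges_cons, ← hP]
          exact List.mem_cons_self

/-- the number of edges of a closed trail at a left vertex -/
theorem cycle_left (t : ι → G) (R : ℕ)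
    (h : ∀ L : List (ι × ι), Red L → L ≠ [] → L.length < R →
      (L.map fun p => t p.1 * (t p.2)⁻¹).prod ≠ 1) (g : G)
    (w : (bip t).Walk (Sum.inl g) (Sum.inl g)) (hw : w.IsCycle) : 2 * R ≤ w.length := by
  obtain ⟨L, hL, hlen, hprod, -⟩ := walk_lemma t w.length _ _ w g g rfl rfl le_rfl hw.isTrail
  have h3 := hw.three_le_length
  by_contra hcon
  refine h L hL ?_ (by omega) ?_
  · intro h0
    rw [h0] at hlen
    simp at hlen
    omega
  · exact (mul_eq_left.1 hprod.symm)

theorem cycle_all (t : ι → G) (R : ℕ)
    (h : ∀ L : List (ι × ι), Red L → L ≠ [] → L.length < R →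
      (L.map fun p => t p.1 * (t p.2)⁻¹).prod ≠ 1) (a : G ⊕ G)
    (w : (bip t).Walk a a) (hw : w.IsCycle) : 2 * R ≤ w.length := by
  classical
  rcases a with g | x
  · exact cycle_left t R h g w hw
  · have h1 : ∃ g : G, Sum.inl g ∈ w.support := by
      cases w with
      | nil => exact absurd hw SimpleGraph.Walk.not_isCycle_nil
      | @cons _ y _ h1 w1 =>
        rcases y with g | y
        · exact ⟨g, by simp⟩
        · exact absurd h1 not_adj_rr
    obtain ⟨g, hg⟩ := h1
    have h2 := cycle_left t R h g (w.rotate _ hg) (hw.rotate hg)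
    rw [SimpleGraph.Walk.length_rotate] at h2
    exact h2

end GraphC

open GraphC in
theorem graphC {G : Type} [Group G] [Finite G] {ι : Type} [Fintype ι] [DecidableEq ι] (t : ι → G)
    (R : ℕ) (hR : 2 ≤ R)
    (h : ∀ L : List (ι × ι), Red L → L ≠ [] → L.length < R →
      (L.map fun p => t p.1 * (t p.2)⁻¹).prod ≠ 1) :
    ∃ (V : Type) (_ : Fintype V) (Γ : SimpleGraph V) (_ : DecidableRel Γ.Adj),
      Γ.IsRegularOfDegree (Fintype.card ι) ∧ ((2 * R : ℕ) : ℕ∞) ≤ Γ.egirth ∧ Γ.Colorable 2 ∧
      Fintype.card V = 2 * Nat.card G := by
  classical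
  have hinj : Function.Injective t := by
    intro P Q hPQ
    by_contra hne
    refine h [(P, Q)] ⟨?_, ?_⟩ (by simp) (by simp; omega) ?_
    · intro p hp
      rw [List.mem_singleton] at hp
      rw [hp]
      exact hne
    · exact List.isChain_singleton _
    · simp [hPQ]
  have : Fintype G := Fintype.ofFinite G
  refine ⟨G ⊕ G, inferInstance, bip t, Classical.decRel _, ?_, ?_, ?_, ?_⟩
  · intro v
    rcases v with g | x
    · rw [SimpleGraph.degree]
      have e : (bip t).neighborFinset (Sum.inl g) =
          Finset.univ.image (fun P => (Sum.inr (g * t P) : G ⊕ G)) := by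
        ext v
        rw [SimpleGraph.mem_neighborFinset, Finset.mem_image]
        rcases v with y | y
        · constructor
          · intro H
            exact absurd H not_adj_ll
          · rintro ⟨P, -, H⟩
            exact absurd H (by simp)
        · rw [adj_lr]
          constructor
          · rintro ⟨P, H⟩
            exact ⟨P, Finset.mem_univ _, by rw [H]⟩
          · rintro ⟨P, -, H⟩
            exact ⟨P, (Sum.inr.inj H).symm⟩
      rw [e, Finset.card_image_of_injective, Finset.card_univ]
      intro P Q hPQ
      exact hinj (mul_left_cancel (Sum.inr.inj hPQ))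
    · rw [SimpleGraph.degree]
      have e : (bip t).neighborFinset (Sum.inr x) =
          Finset.univ.image (fun P => (Sum.inl (x * (t P)⁻¹) : G ⊕ G)) := by
        ext v
        rw [SimpleGraph.mem_neighborFinset, Finset.mem_image]
        rcases v with y | y
        · rw [adj_rl]
          constructor
          · rintro ⟨P, H⟩
            exact ⟨P, Finset.mem_univ _, by rw [H, mul_inv_cancel_right]⟩
          · rintro ⟨P, -, H⟩
            exact ⟨P, by rw [← Sum.inl.inj H, inv_mul_cancel_right]⟩
        · constructor
          · intro H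
            exact absurd H not_adj_rr
          · rintro ⟨P, -, H⟩
            exact absurd H (by simp)
      rw [e, Finset.card_image_of_injective, Finset.card_univ]
      intro P Q hPQ
      exact hinj (inv_injective (mul_left_cancel (Sum.inl.inj hPQ)))
  · rw [SimpleGraph.le_egirth]
    intro a w hw
    exact_mod_cast cycle_all t R h a w hw
  · have C : (bip t).Coloring Bool := SimpleGraph.Coloring.mk (fun v => v.isLeft) (by
      intro u v huv
      rcases u with u | u <;> rcases v with v | v
      · exact absurd huv not_adj_ll
      · simp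
      · simp
      · exact absurd huv not_adj_rr)
    have hC := C.colorable
    rwa [Fintype.card_bool] at hC
  · rw [Fintype.card_sum, Nat.card_eq_fintype_card]
    ring

end Pool.Agent.H7R2.LG
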