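import Pool.Agent.H2.L.R_seed8.H7R2.LG.Pm
import Pool.Agent.H2.L.R_seed8.H7R2.LG.Order

set_option autoImplicit false

/-! The finite quotient groups and the bound for their order. -/

namespace Pool.Agent.H7R2.LG

open Matrix Polynomial

theorem B_inO_pow {R : Type*} [CommRing R] {d : ℕ} {s : R →+* R} {x : R} (hs : s x = x) (m : ℕ) :
    InO s x (Pm d x ^ m) := by
  induction m with
  | zero => rw [pow_zero]; exact InO.one
  | succ m ih => rw [pow_succ]; exact ih.mul (pm_inO d s x hs)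

/-- general lemma on indices -/
theorem B_relIndex {G : Type*} [Group G] (A B : Subgroup G) {T : Type*} [Finite T] (f : A → T)
    (h : ∀ a a' : A, f a = f a' → ((a : G)⁻¹ * (a' : G)) ∈ B) :
    B.relIndex A ≤ Nat.card T ∧ B.relIndex A ≠ 0 := by
  let g : (A ⧸ B.subgroupOf A) → T := fun q => f q.out
  have hg : Function.Injective g := by
    intro q q' hq
    have h1 := h _ _ hq
    rw [← QuotientGroup.out_eq' q, ← QuotientGroup.out_eq' q', QuotientGroup.eq]
    exact h1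
  have hfin : Finite (A ⧸ B.subgroupOf A) := Finite.of_injective g hg
  constructor
  · exact Nat.card_le_card_of_injective g hg
  · exact Nat.card_pos.ne'

section

variable {K : Type} [Field K]

/-- the matrix of an element of the group -/
def B_mat {d : ℕ} {σ : K →+* K} {μ : Subgroup Kˣ} (M : Gs d σ μ) :
    Matrix (Fin (d + 1)) (Fin (d + 1)) (PowerSeries K) :=
  ((M : GL (Fin (d + 1)) (PowerSeries K)) : Matrix (Fin (d + 1)) (Fin (d + 1)) (PowerSeries K))

variable {d : ℕ} {σ : K →+* K} {μ : Subgroup Kˣ}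

theorem B_mat_mul (M N : Gs d σ μ) : B_mat (M * N) = B_mat M * B_mat N := rfl

theorem B_mat_one : B_mat (1 : Gs d σ μ) = 1 := rfl

theorem B_inv_mul (M : Gs d σ μ) : B_mat M⁻¹ * B_mat M = 1 := by
  rw [← B_mat_mul, inv_mul_cancel, B_mat_one]

theorem B_mul_inv (M : Gs d σ μ) : B_mat M * B_mat M⁻¹ = 1 := by
  rw [← B_mat_mul, mul_inv_cancel, B_mat_one]

theorem B_mat_inO (M : Gs d σ μ) :
    InO (PowerSeries.map σ) (PowerSeries.X : PowerSeries K) (B_mat M) := M.2.1

theorem B_mat_det (M : Gs d σ μ) : ∃ u ∈ μ, (B_mat M).det = PowerSeries.C (u : K) := M.2.2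

theorem B_sX : PowerSeries.map σ (PowerSeries.X : PowerSeries K) = PowerSeries.X :=
  PowerSeries.map_X σ

/-- the congruence subgroups -/
def B_N (d : ℕ) (σ : K →+* K) (μ : Subgroup Kˣ) (m : ℕ) : Subgroup (Gs d σ μ) where
  carrier := {M | ∃ N, InO (PowerSeries.map σ) (PowerSeries.X : PowerSeries K) N ∧
    B_mat M - 1 = N * Pm d (PowerSeries.X : PowerSeries K) ^ m}
  mul_mem' := by
    rintro M M' ⟨N, hN, hM⟩ ⟨N', hN', hM'⟩
    refine ⟨N + N' + N * (Pm d (PowerSeries.X : PowerSeries K) ^ m * N'),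
      (hN.add hN').add (hN.mul ((B_inO_pow B_sX m).mul hN')), ?_⟩
    rw [B_mat_mul]
    have h1 : B_mat M * B_mat M' - 1 = (B_mat M - 1) + (B_mat M' - 1) +
      (B_mat M - 1) * (B_mat M' - 1) := by noncomm_ring
    rw [h1, hM, hM']
    noncomm_ring
  one_mem' := by
    refine ⟨0, ?_, ?_⟩
    · have := (InO.one (s := PowerSeries.map σ) (x := (PowerSeries.X : PowerSeries K))
        (d := d)).sub InO.one
      rwa [sub_self] at this
    · rw [B_mat_one, sub_self, Matrix.zero_mul]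
  inv_mem' := by
    rintro M ⟨N, hN, hM⟩
    refine ⟨-(B_mat M⁻¹ * N), ((B_mat_inO _).mul hN).neg, ?_⟩
    have h1 : B_mat M⁻¹ - 1 = -(B_mat M⁻¹ * (B_mat M - 1)) := by
      rw [Matrix.mul_sub, B_inv_mul, Matrix.mul_one]
      abel
    rw [h1, hM, Matrix.neg_mul, Matrix.mul_assoc]

theorem B_N_normal (m : ℕ) : (B_N d σ μ m).Normal := by
  constructor
  rintro M ⟨N, hN, hM⟩ g
  obtain ⟨g', hg', hg⟩ := inO_pow (B_sX (σ := σ)) (B_mat_inO g⁻¹) m
  refine ⟨B_mat g * (N * g'), (B_mat_inO g).mul (hN.mul hg'), ?_⟩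
  rw [B_mat_mul, B_mat_mul]
  have h1 : B_mat g * B_mat M * B_mat g⁻¹ - 1 = B_mat g * ((B_mat M - 1) * B_mat g⁻¹) := by
    rw [Matrix.sub_mul, Matrix.mul_sub, Matrix.one_mul, B_mul_inv, Matrix.mul_assoc]
  rw [h1, hM, Matrix.mul_assoc N, hg]
  simp only [Matrix.mul_assoc]

theorem B_N_succ (m : ℕ) : B_N d σ μ (m + 1) ≤ B_N d σ μ m := by
  rintro M ⟨N, hN, hM⟩
  refine ⟨N * Pm d (PowerSeries.X : PowerSeries K), hN.mul (pm_inO d _ _ B_sX), ?_⟩
  rw [hM, pow_succ', Matrix.mul_assoc]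

theorem B_N_zero : B_N d σ μ 0 = ⊤ := by
  rw [eq_top_iff]
  rintro M -
  exact ⟨B_mat M - 1, (B_mat_inO M).sub InO.one, by rw [pow_zero, Matrix.mul_one]⟩

/-- membership in the next congruence subgroup -/
theorem B_next {m : ℕ} (M M' : Gs d σ μ)
    {A : Matrix (Fin (d + 1)) (Fin (d + 1)) (PowerSeries K)}
    (hA : InO (PowerSeries.map σ) (PowerSeries.X : PowerSeries K) A)
    (h0 : PowerSeries.constantCoeff (A 0 0) = 0)
    (h : B_mat M' - B_mat M = A * Pm d (PowerSeries.X : PowerSeries K) ^ m) :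
    M⁻¹ * M' ∈ B_N d σ μ (m + 1) := by
  obtain ⟨N, hN, rfl⟩ := inO_descent (B_sX (σ := σ)) PowerSeries.X_ne_zero hA
    (PowerSeries.X_dvd_iff.mpr h0)
  refine ⟨B_mat M⁻¹ * N, (B_mat_inO _).mul hN, ?_⟩
  have h1 : B_mat (M⁻¹ * M') - 1 = B_mat M⁻¹ * (B_mat M' - B_mat M) := by
    rw [B_mat_mul, Matrix.mul_sub, B_inv_mul]
  rw [h1, h, pow_succ']
  simp only [Matrix.mul_assoc]

/-- the trace condition -/
theorem B_trace {k : ℕ} (hk : k ≠ 0) (M : Gs d σ μ)
    {N : Matrix (Fin (d + 1)) (Fin (d + 1)) (PowerSeries K)}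
    (hM : B_mat M - 1 = N * Pm d (PowerSeries.X : PowerSeries K) ^ ((d + 1) * k)) :
    PowerSeries.constantCoeff N.trace = 0 := by
  rw [pow_mul, pm_pow] at hM
  have h1 : B_mat M = 1 + (PowerSeries.X : PowerSeries K) ^ k • N := by
    have h2 : ((PowerSeries.X : PowerSeries K) •
        (1 : Matrix (Fin (d + 1)) (Fin (d + 1)) (PowerSeries K))) ^ k =
        (PowerSeries.X : PowerSeries K) ^ k • 1 := by
      rw [_root_.smul_pow, one_pow]
    rw [h2, Matrix.mul_smul, Matrix.mul_one] at hM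
    rw [← hM]
    abel
  obtain ⟨u, -, hu⟩ := B_mat_det M
  rw [h1, Matrix.det_one_add_smul] at hu
  generalize Polynomial.eval ((PowerSeries.X : PowerSeries K) ^ k) _ = c at hu
  have h3 := congrArg (⇑(PowerSeries.constantCoeff (R := K))) hu
  simp only [map_add, map_mul, map_one, map_pow, PowerSeries.constantCoeff_X, zero_pow hk,
    PowerSeries.constantCoeff_C, mul_zero, add_zero, ne_eq, OfNat.ofNat_ne_zero,
    not_false_eq_true, zero_pow] at h3
  rw [← h3, map_one] at hu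
  have h4 : (PowerSeries.X : PowerSeries K) ^ k * (N.trace + c * PowerSeries.X ^ k) = 0 := by
    linear_combination hu
  have h5 : (PowerSeries.X : PowerSeries K) ^ k ≠ 0 := pow_ne_zero _ PowerSeries.X_ne_zero
  have h6 := (mul_eq_zero.mp h4).resolve_left h5
  have h7 := congrArg (⇑(PowerSeries.constantCoeff (R := K))) h6
  simpa only [map_add, map_mul, map_pow, PowerSeries.constantCoeff_X, zero_pow hk, mul_zero,
    add_zero, map_zero] using h7

theorem B_ev (r : PowerSeries K) : (PowerSeries.constantCoeff (PowerSeries.map σ r) : K) =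
    σ (PowerSeries.constantCoeff r) := by
  rw [← PowerSeries.coeff_zero_eq_constantCoeff_apply, PowerSeries.coeff_map,
    PowerSeries.coeff_zero_eq_constantCoeff_apply]

theorem B_step [Finite K] (m : ℕ) :
    (B_N d σ μ (m + 1)).relIndex (B_N d σ μ m) ≤ wt d σ μ m ∧
      (B_N d σ μ (m + 1)).relIndex (B_N d σ μ m) ≠ 0 := by
  unfold wt
  by_cases hm : m = 0
  · subst hm
    rw [if_pos rfl]
    refine B_relIndex _ _ (T := {y : K // ∃ u ∈ μ, ∏ j ∈ Finset.range (d + 1), σ^[j] y = (u : K)})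
      (fun M => ⟨PowerSeries.constantCoeff (B_mat (M : Gs d σ μ) 0 0), ?_⟩) ?_
    · obtain ⟨u, hu, hu'⟩ := B_mat_det (M : Gs d σ μ)
      refine ⟨u, hu, ?_⟩
      rw [← inO_det σ PowerSeries.constantCoeff (B_sX (σ := σ)) PowerSeries.constantCoeff_X
        (B_ev (σ := σ)) (B_mat_inO (M : Gs d σ μ)), hu', PowerSeries.constantCoeff_C]
    · intro a a' h
      rw [Subtype.mk.injEq] at h
      refine B_next (A := B_mat (a' : Gs d σ μ) - B_mat (a : Gs d σ μ)) _ _
        ((B_mat_inO _).sub (B_mat_inO _)) ?_ ?_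
      · rw [Matrix.sub_apply, map_sub, h, sub_self]
      · rw [pow_zero, Matrix.mul_one]
  · rw [if_neg hm]
    have key : ∀ a a' : B_N d σ μ m,
        PowerSeries.constantCoeff ((a.2.choose) 0 0) =
          PowerSeries.constantCoeff ((a'.2.choose) 0 0) →
        ((a : Gs d σ μ)⁻¹ * (a' : Gs d σ μ)) ∈ B_N d σ μ (m + 1) := by
      intro a a' h
      refine B_next (A := a'.2.choose - a.2.choose) _ _
        (a'.2.choose_spec.1.sub a.2.choose_spec.1) ?_ ?_
      · rw [Matrix.sub_apply, map_sub, h, sub_self]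
      · rw [Matrix.sub_mul, ← a'.2.choose_spec.2, ← a.2.choose_spec.2]
        abel
    by_cases hd : (d + 1) ∣ m
    · rw [if_pos hd]
      obtain ⟨k, rfl⟩ := hd
      have hk : k ≠ 0 := by rintro rfl; exact hm (Nat.mul_zero _)
      refine B_relIndex _ _ (T := {y : K // ∑ j ∈ Finset.range (d + 1), σ^[j] y = 0})
        (fun M => ⟨PowerSeries.constantCoeff ((M.2.choose) 0 0), ?_⟩) ?_
      · rw [← inO_trace σ PowerSeries.constantCoeff (B_sX (σ := σ)) PowerSeries.constantCoeff_X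
          (B_ev (σ := σ)) M.2.choose_spec.1]
        exact B_trace hk _ M.2.choose_spec.2
      · intro a a' h
        rw [Subtype.mk.injEq] at h
        exact key a a' h
    · rw [if_neg hd]
      exact B_relIndex _ _ (T := K) (fun M => PowerSeries.constantCoeff ((M.2.choose) 0 0)) key

theorem B_index [Finite K] (m : ℕ) :
    (B_N d σ μ m).index ≤ bnd d σ μ m ∧ (B_N d σ μ m).index ≠ 0 := by
  induction m with
  | zero => rw [B_N_zero, Subgroup.index_top]; simp [bnd]
  | succ m ih =>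
    obtain ⟨h1, h2⟩ := B_step (d := d) (σ := σ) (μ := μ) m
    rw [← Subgroup.relIndex_mul_index (B_N_succ m)]
    refine ⟨?_, mul_ne_zero h2 ih.2⟩
    unfold bnd
    rw [Finset.prod_range_succ, mul_comm]
    exact Nat.mul_le_mul ih.1 h1

end

theorem grpB {K : Type} [Field K] [Finite K] (d : ℕ) (σ : K →+* K) (μ : Subgroup Kˣ) (m : ℕ) :
    ∃ (G : Type) (_ : Group G) (_ : Finite G) (f : Gs d σ μ →* G),
      Nat.card G ≤ bnd d σ μ m ∧ ∀ M : Gs d σ μ, f M = 1 →
        ∃ N : Matrix (Fin (d + 1)) (Fin (d + 1)) (PowerSeries K),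
          ((M : GL (Fin (d + 1)) (PowerSeries K)) :
            Matrix (Fin (d + 1)) (Fin (d + 1)) (PowerSeries K)) - 1 =
            N * (Pm d (PowerSeries.X : PowerSeries K)) ^ m := by
  have := B_N_normal (d := d) (σ := σ) (μ := μ) m
  obtain ⟨h1, h2⟩ := B_index (d := d) (σ := σ) (μ := μ) m
  refine ⟨Gs d σ μ ⧸ B_N d σ μ m, inferInstance, Nat.finite_of_card_ne_zero h2,
    QuotientGroup.mk' _, h1, ?_⟩
  intro M hM
  have hM' : M ∈ B_N d σ μ m := (QuotientGroup.eq_one_iff M).mp hM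
  obtain ⟨N, -, hN⟩ := hM'
  exact ⟨N, hN⟩

end Pool.Agent.H7R2.LG
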