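import Pool.Agent.H2.L.R_seed8.H7R2.LG.Defs

set_option autoImplicit false

namespace Pool.Agent.H7R2.LG

open Matrix Polynomial

/-- the matrices `T_e = (e₂/e₅) τ + (e₆/e₃)`, `e_i = ψ^i e` -/
noncomputable def T4 {K : Type} [Field K] (ψ : K →+* K) (e : K) : Matrix (Fin 4) (Fin 4) K[X] :=
  !![C (ψ^[6] e / ψ^[3] e), C (ψ^[2] e / ψ^[5] e), 0, 0;
     0, C (e / ψ^[5] e), C (ψ^[4] e / ψ^[7] e), 0;
     0, 0, C (ψ^[2] e / ψ^[7] e), C (ψ^[6] e / ψ e);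
     X * C (e / ψ^[3] e), 0, 0, C (ψ^[4] e / ψ e)]

end Pool.Agent.H7R2.LG
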