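import Mathlib
import Pool.Agent.H2.L.R_seed8.H7R2.LG.Defs

set_option autoImplicit false

/-! Task E2 (helper419): Turán type lower bounds for all `n`. -/

namespace Pool.Agent.H7R2.LG

/-- cycles are mapped to cycles by homomorphisms which are injective on components -/
theorem E2_cycle {V W : Type*} {G : SimpleGraph V} {H : SimpleGraph W} (f : G →g H)
    (hf : ∀ x y, G.Reachable x y → f x = f y → x = y) {u : V} (w : G.Walk u u) (hw : w.IsCycle) :
    (w.map f).IsCycle := by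
  classical
  have hr : ∀ x ∈ w.support, ∀ y ∈ w.support, f x = f y → x = y := by
    intro x hx y hy h
    exact hf x y ((w.takeUntil x hx).reachable.symm.trans (w.takeUntil y hy).reachable) h
  rw [SimpleGraph.Walk.isCycle_def, SimpleGraph.Walk.isTrail_def] at hw ⊢
  obtain ⟨h1, h2, h3⟩ := hw
  refine ⟨?_, ?_, ?_⟩
  · rw [SimpleGraph.Walk.edges_map]
    refine List.Nodup.map_on ?_ h1
    intro e he e' he' hee
    induction e using Sym2.ind with
    | _ a b =>
      induction e' using Sym2.ind with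
      | _ a' b' =>
        have ha := SimpleGraph.Walk.fst_mem_support_of_mem_edges w he
        have hb := SimpleGraph.Walk.snd_mem_support_of_mem_edges w he
        have ha' := SimpleGraph.Walk.fst_mem_support_of_mem_edges w he'
        have hb' := SimpleGraph.Walk.snd_mem_support_of_mem_edges w he'
        rw [Sym2.map_mk, Sym2.map_mk, Sym2.eq_iff] at hee
        rw [Sym2.eq_iff]
        rcases hee with ⟨h5, h6⟩ | ⟨h5, h6⟩
        · exact Or.inl ⟨hr _ ha _ ha' h5, hr _ hb _ hb' h6⟩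
        · exact Or.inr ⟨hr _ ha _ hb' h5, hr _ hb _ ha' h6⟩
  · intro h
    apply h2
    rw [SimpleGraph.Walk.eq_nil_iff_nil] at h ⊢
    rwa [SimpleGraph.Walk.nil_map_iff] at h
  · rw [SimpleGraph.Walk.support_map, ← List.map_tail]
    refine List.Nodup.map_on ?_ h3
    intro x hx y hy h
    exact hr x (List.mem_of_mem_tail hx) y (List.mem_of_mem_tail hy) h

/-- `t` disjoint copies of a graph with `v` vertices, on the vertex set `Fin n` -/
theorem E2_copies {V : Type} [Fintype V] (Γ₀ : SimpleGraph V) [DecidableRel Γ₀.Adj] (δ g n v t : ℕ)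
    (hreg : Γ₀.IsRegularOfDegree δ) (hg : ((g : ℕ) : ℕ∞) ≤ Γ₀.egirth) (hcol : Γ₀.Colorable 2)
    (hv : Fintype.card V = v) (hv0 : 0 < v) (htn : t * v ≤ n) :
    ∃ (Γ : SimpleGraph (Fin n)) (_ : DecidableRel Γ.Adj), ((g : ℕ) : ℕ∞) ≤ Γ.egirth ∧ Γ.Colorable 2 ∧
      t * v * δ ≤ 2 * Γ.edgeFinset.card := by
  classical
  let e : V ≃ Fin v := Fintype.equivFinOfCardEq hv
  let φ : Fin n → V := fun x => e.symm ⟨(x : ℕ) % v, Nat.mod_lt _ hv0⟩
  let Γ : SimpleGraph (Fin n) :=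
    { Adj := fun x y => (x : ℕ) / v = (y : ℕ) / v ∧ Γ₀.Adj (φ x) (φ y)
      symm := ⟨fun x y h => ⟨h.1.symm, h.2.symm⟩⟩
      loopless := ⟨fun x h => Γ₀.loopless.irrefl _ h.2⟩ }
  have hAdj : ∀ x y, Γ.Adj x y ↔ ((x : ℕ) / v = (y : ℕ) / v ∧ Γ₀.Adj (φ x) (φ y)) := fun x y => Iff.rfl
  let f : Γ →g Γ₀ := ⟨φ, fun {a b} h => h.2⟩
  have hblock : ∀ x y, Γ.Reachable x y → (x : ℕ) / v = (y : ℕ) / v := by
    intro x y h
    obtain ⟨w⟩ := h
    induction w with
    | nil => rfl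
    | cons h _ ih => exact h.1.trans ih
  have hinj : ∀ x y, Γ.Reachable x y → f x = f y → x = y := by
    intro x y h hxy
    have h1 := hblock x y h
    have h2 : φ x = φ y := hxy
    have h3 := e.symm.injective h2
    have h4 : (x : ℕ) % v = (y : ℕ) % v := by
      have := congrArg Fin.val h3
      exact this
    apply Fin.ext
    rw [← Nat.div_add_mod (x : ℕ) v, ← Nat.div_add_mod (y : ℕ) v, h1, h4]
  refine ⟨Γ, Classical.decRel _, ?_, SimpleGraph.Colorable.of_hom f hcol, ?_⟩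
  · rw [SimpleGraph.le_egirth] at hg ⊢
    intro a w hw
    have := hg _ (w.map f) (E2_cycle f hinj w hw)
    rwa [SimpleGraph.Walk.length_map] at this
  · -- degrees
    have hdeg : ∀ x : Fin n, (x : ℕ) < t * v → δ ≤ Γ.degree x := by
      intro x hx
      have hd := hreg (φ x)
      rw [← hd, ← SimpleGraph.card_neighborFinset_eq_degree, ← SimpleGraph.card_neighborFinset_eq_degree]
      have hk : (x : ℕ) / v < t := by
        rw [Nat.div_lt_iff_lt_mul hv0]; exact hx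
      have hlt : ∀ b : V, ((x : ℕ) / v) * v + (e b : ℕ) < n := by
        intro b
        have h1 := (e b).2
        have h2 : ((x : ℕ) / v + 1) * v ≤ t * v := Nat.mul_le_mul_right v hk
        have h3 : ((x : ℕ) / v + 1) * v = ((x : ℕ) / v) * v + v := by ring
        omega
      refine Finset.card_le_card_of_injOn (fun b => ⟨((x : ℕ) / v) * v + (e b : ℕ), hlt b⟩) ?_ ?_
      · intro b hb
        rw [Finset.mem_coe, SimpleGraph.mem_neighborFinset] at hb
        rw [Finset.mem_coe, SimpleGraph.mem_neighborFinset, hAdj]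
        have h1 := (e b).2
        have h5 : ∀ k r : ℕ, r < v → (k * v + r) / v = k := by
          intro k r hr
          rw [mul_comm, Nat.mul_add_div hv0, Nat.div_eq_of_lt hr, add_zero]
        have h6 : ∀ k r : ℕ, r < v → (k * v + r) % v = r := by
          intro k r hr
          rw [mul_comm, Nat.mul_add_mod, Nat.mod_eq_of_lt hr]
        refine ⟨(h5 _ _ h1).symm, ?_⟩
        have h7 : φ ⟨((x : ℕ) / v) * v + (e b : ℕ), hlt b⟩ = b := by
          change e.symm ⟨(((x : ℕ) / v) * v + (e b : ℕ)) % v, _⟩ = b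
          rw [Equiv.symm_apply_eq]
          apply Fin.ext
          exact h6 _ _ h1
        rw [h7]
        exact hb
      · intro b _ b' _ h
        have h1 : ((x : ℕ) / v) * v + (e b : ℕ) = ((x : ℕ) / v) * v + (e b' : ℕ) := congrArg Fin.val h
        have h2 : (e b : ℕ) = (e b' : ℕ) := by omega
        exact e.injective (Fin.ext h2)
    have hsum := Γ.sum_degrees_eq_twice_card_edges
    have h1 : ∑ x ∈ (Finset.univ : Finset (Fin n)).filter (fun x : Fin n => (x : ℕ) < t * v), δ ≤ ∑ x, Γ.degree x := by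
      refine (Finset.sum_le_sum fun x hx => hdeg x (Finset.mem_filter.1 hx).2).trans ?_
      exact Finset.sum_le_sum_of_subset (Finset.filter_subset _ _)
    rw [Finset.sum_const, smul_eq_mul] at h1
    have h2 : ((Finset.univ : Finset (Fin n)).filter (fun x : Fin n => (x : ℕ) < t * v)).card = t * v := by
      have : ((Finset.univ : Finset (Fin n)).filter (fun x : Fin n => (x : ℕ) < t * v)) =
          (Finset.univ : Finset (Fin (t * v))).map (Fin.castLEEmb htn) := by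
        ext x
        simp only [Finset.mem_filter, Finset.mem_univ, true_and, Finset.mem_map]
        constructor
        · intro h
          exact ⟨⟨x, h⟩, Fin.ext rfl⟩
        · rintro ⟨y, hy⟩
          rw [← hy]
          exact y.2
      rw [this, Finset.card_map, Finset.card_univ, Fintype.card_fin]
    rw [h2] at h1
    have h4 : ∀ i1 i2 : Fintype Γ.edgeSet,
        (@SimpleGraph.edgeFinset _ Γ i1).card = (@SimpleGraph.edgeFinset _ Γ i2).card := by
      intro i1 i2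
      rw [Subsingleton.elim i1 i2]
    calc t * v * δ ≤ ∑ x, Γ.degree x := h1
      _ = _ := hsum
      _ = _ := congrArg (2 * ·) (h4 _ _)

theorem E2_turan (m : ℕ) (hm : 1 ≤ m)
    (core4even : ∀ (q : ℕ), IsPrimePow q → Even q → ∀ (δ : ℕ), δ ≤ q ^ 3 + 1 →
      ∃ (V : Type) (_ : Fintype V) (_ : Nonempty V) (Γ : SimpleGraph V) (_ : DecidableRel Γ.Adj),
        Γ.IsRegularOfDegree δ ∧ ((4 * m : ℕ) : ℕ∞) ≤ Γ.egirth ∧ Γ.Colorable 2 ∧
        Fintype.card V ≤ 2 * ((q ^ 6 + q ^ 4 + q ^ 2 + 1) *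
          q ^ (2 * (4 * (m - 1) - (m - 1) / 4)))) :
    ∃ c : ℝ, 0 < c ∧ ∃ N : ℕ, ∀ n : ℕ, N ≤ n →
    ∃ (Γ : SimpleGraph (Fin n)) (_ : DecidableRel Γ.Adj), ((4 * m : ℕ) : ℕ∞) ≤ Γ.egirth ∧
      Γ.Colorable 2 ∧
      c * (n : ℝ) ^ (1 + (3 : ℝ) / (8 * m - 2 - 2 * (((m - 1) / 4 : ℕ) : ℝ))) ≤
        (Γ.edgeFinset.card : ℝ) := by
  set D : ℕ := 8 * m - 2 - 2 * ((m - 1) / 4) with hD
  have hD6 : 6 ≤ D := by omega
  have hDr : (8 * (m : ℝ) - 2 - 2 * (((m - 1) / 4 : ℕ) : ℝ)) = (D : ℝ) := by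
    have h1 : D + 2 + 2 * ((m - 1) / 4) = 8 * m := by omega
    have h2 : ((D + 2 + 2 * ((m - 1) / 4) : ℕ) : ℝ) = ((8 * m : ℕ) : ℝ) := by rw [h1]
    push_cast at h2
    linarith
  have hDpos : (0 : ℝ) < D := by exact_mod_cast (by omega : 0 < D)
  refine ⟨1 / 128, by norm_num, 4 * 2 ^ D, fun n hn => ?_⟩
  -- choice of q
  set b : ℕ := 2 ^ D with hb
  have hb1 : 1 < b := by
    rw [hb]; exact Nat.one_lt_pow (by omega) (by norm_num)
  have hb0 : 0 < b := by omega
  have hn4 : b ≤ n / 4 := by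
    rw [Nat.le_div_iff_mul_le (by norm_num)]; omega
  set a : ℕ := Nat.log b (n / 4) with ha
  have ha1 : 1 ≤ a := Nat.log_pos hb1 hn4
  have hle : b ^ a ≤ n / 4 := Nat.pow_log_le_self b (by omega)
  have hlt : n / 4 < b ^ (a + 1) := Nat.lt_pow_succ_log_self hb1 _
  set q : ℕ := 2 ^ a with hq
  have hqb : q ^ D = b ^ a := by rw [hq, hb, ← pow_mul, ← pow_mul, mul_comm]
  have hq2 : 2 ≤ q := by
    calc 2 = 2 ^ 1 := by norm_num
      _ ≤ 2 ^ a := Nat.pow_le_pow_right (by norm_num) ha1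
  have hqpp : IsPrimePow q := (Nat.prime_two.isPrimePow).pow (by omega)
  have hqe : Even q := by
    rw [hq]; exact (even_two).pow_of_ne_zero (by omega)
  obtain ⟨V, _, _, Γ₀, _, hreg, hgirth, hcol, hcard⟩ := core4even q hqpp hqe (q ^ 3 + 1) le_rfl
  set v := Fintype.card V with hv
  have hv0 : 0 < v := Fintype.card_pos
  have hvle : v ≤ 4 * q ^ D := by
    have h1 : q ^ 6 + q ^ 4 + q ^ 2 + 1 ≤ 2 * q ^ 6 := by
      have e1 : 4 * q ^ 4 ≤ q ^ 6 := by
        have : q ^ 6 = q ^ 2 * q ^ 4 := by ring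
        rw [this]
        exact Nat.mul_le_mul_right _ (by nlinarith)
      have e2 : q ^ 2 ≤ q ^ 4 := Nat.pow_le_pow_right (by omega) (by norm_num)
      have e3 : 1 ≤ q ^ 4 := Nat.one_le_pow _ _ (by omega)
      omega
    have h2 : D = 6 + 2 * (4 * (m - 1) - (m - 1) / 4) := by omega
    calc v ≤ 2 * ((q ^ 6 + q ^ 4 + q ^ 2 + 1) * q ^ (2 * (4 * (m - 1) - (m - 1) / 4))) := hcard
      _ ≤ 2 * ((2 * q ^ 6) * q ^ (2 * (4 * (m - 1) - (m - 1) / 4))) := by gcongr
      _ = 4 * q ^ D := by rw [h2, pow_add]; ring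
  have hvn : v ≤ n := by
    have h1 : 4 * (n / 4) ≤ n := Nat.mul_div_le n 4
    rw [hqb] at hvle
    omega
  set t := n / v with ht
  have ht1 : 1 ≤ t := Nat.div_pos hvn hv0
  have htn : t * v ≤ n := Nat.div_mul_le_self n v
  have htn2 : n < (t + 1) * v := by
    rw [ht]; exact Nat.lt_mul_of_div_lt (Nat.lt_succ_self _) hv0
  obtain ⟨Γ, hdec, g1, g2, g3⟩ := E2_copies Γ₀ (q ^ 3 + 1) (4 * m) n v t hreg hgirth hcol rfl hv0 htn
  refine ⟨Γ, hdec, g1, g2, ?_⟩
  rw [hDr]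
  -- n q^3 ≤ 4 E
  have hE : n * q ^ 3 ≤ 4 * Γ.edgeFinset.card := by
    have h1 : n ≤ 2 * (t * v) := by nlinarith
    calc n * q ^ 3 ≤ (2 * (t * v)) * q ^ 3 := Nat.mul_le_mul_right _ h1
      _ ≤ 2 * (t * v * (q ^ 3 + 1)) := by nlinarith
      _ ≤ 2 * (2 * Γ.edgeFinset.card) := Nat.mul_le_mul_left _ g3
      _ = _ := by ring
  have hEr : (n : ℝ) * (q : ℝ) ^ 3 ≤ 4 * (Γ.edgeFinset.card : ℝ) := by exact_mod_cast hE
  -- upper bound for n
  have hnq : (n : ℝ) ≤ 4 * (2 * (q : ℝ)) ^ D := by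
    have h1 : n < 4 * b ^ (a + 1) := by
      have := (Nat.div_lt_iff_lt_mul (by norm_num : 0 < 4)).1 hlt
      omega
    have h2 : b ^ (a + 1) = (2 * q) ^ D := by
      rw [pow_succ, ← hqb, mul_pow, mul_comm]
    rw [h2] at h1
    exact_mod_cast h1.le
  have hn0 : (0 : ℝ) ≤ n := Nat.cast_nonneg n
  have hnpos : (0 : ℝ) < n := by
    have : 0 < n := lt_of_lt_of_le hv0 hvn
    exact_mod_cast this
  have hpow : (n : ℝ) ^ ((3 : ℝ) / D) ≤ 32 * (q : ℝ) ^ 3 := by
    have h1 : (n : ℝ) ^ ((3 : ℝ) / D) ≤ (4 * (2 * (q : ℝ)) ^ D) ^ ((3 : ℝ) / D) :=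
      Real.rpow_le_rpow hn0 hnq (by positivity)
    rw [Real.mul_rpow (by norm_num) (by positivity)] at h1
    have h2 : ((2 * (q : ℝ)) ^ D) ^ ((3 : ℝ) / D) = (2 * (q : ℝ)) ^ 3 := by
      rw [← Real.rpow_natCast (2 * (q : ℝ)) D, ← Real.rpow_mul (by positivity)]
      have h3 : (D : ℝ) * (3 / D) = ((3 : ℕ) : ℝ) := by
        push_cast
        field_simp
      rw [h3, Real.rpow_natCast]
    have h4 : (4 : ℝ) ^ ((3 : ℝ) / D) ≤ 4 := by
      calc (4 : ℝ) ^ ((3 : ℝ) / D) ≤ (4 : ℝ) ^ (1 : ℝ) := by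
            apply Real.rpow_le_rpow_of_exponent_le (by norm_num)
            rw [div_le_one hDpos]
            exact_mod_cast (by omega : 3 ≤ D)
        _ = 4 := Real.rpow_one 4
    rw [h2] at h1
    calc (n : ℝ) ^ ((3 : ℝ) / D) ≤ (4 : ℝ) ^ ((3 : ℝ) / D) * (2 * (q : ℝ)) ^ 3 := h1
      _ ≤ 4 * (2 * (q : ℝ)) ^ 3 := by gcongr
      _ = 32 * (q : ℝ) ^ 3 := by ring
  rw [Real.rpow_add hnpos, Real.rpow_one]
  calc 1 / 128 * ((n : ℝ) * (n : ℝ) ^ ((3 : ℝ) / D)) ≤ 1 / 128 * ((n : ℝ) * (32 * (q : ℝ) ^ 3)) := by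
        gcongr
    _ = ((n : ℝ) * (q : ℝ) ^ 3) / 4 := by ring
    _ ≤ _ := by linarith

end Pool.Agent.H7R2.LG
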